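import Mathlib

universe u

namespace Pool.Agent.Lib.MP_1ef125_al.Gen

section Compare

variable {B : Type u} [Ring B]

/-- `X` has no nonzero element `x` with `e B x = 0`. -/
def Tf (e : B) (X : Type u) [AddCommGroup X] [Module B X] : Prop :=
  ∀ x : X, (∀ b : B, (e * b) • x = 0) → x = 0

theorem Tf.of_injective {e : B} {X Y : Type u} [AddCommGroup X] [Module B X] [AddCommGroup Y]
    [Module B Y] (f : X →ₗ[B] Y) (hf : Function.Injective f) (hY : Tf e Y) : Tf e X := by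
  intro x hx
  apply hf
  rw [map_zero]
  apply hY
  intro b
  rw [← map_smul, hx, map_zero]

theorem Tf.map_eq_zero {e : B} {X Y : Type u} [AddCommGroup X] [Module B X] [AddCommGroup Y]
    [Module B Y] (hY : Tf e Y) (f : X →ₗ[B] Y) (x : X) (hx : ∀ b : B, (e * b) • x = 0) :
    f x = 0 := by
  apply hY
  intro b
  rw [← map_smul, hx, map_zero]

theorem Tf.prod {e : B} {X Y : Type u} [AddCommGroup X] [Module B X] [AddCommGroup Y]
    [Module B Y] (hX : Tf e X) (hY : Tf e Y) : Tf e (X × Y) := by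
  intro x hx
  ext
  · exact hX.map_eq_zero (LinearMap.fst B X Y) x hx
  · exact hY.map_eq_zero (LinearMap.snd B X Y) x hx

theorem Tf.of_projective {e : B} (hB : Tf e B) {X : Type u} [AddCommGroup X] [Module B X]
    (hX : Module.Projective B X) : Tf e X := by
  obtain ⟨s, hs⟩ := hX.out
  refine Tf.of_injective s hs.injective ?_
  intro x hx
  ext a
  exact hB.map_eq_zero (Finsupp.lapply a) x hx

theorem injective_prod {X Y : Type u} [AddCommGroup X] [Module B X] [AddCommGroup Y]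
    [Module B Y] (hX : Module.Injective B X) (hY : Module.Injective B Y) :
    Module.Injective B (X × Y) := by
  refine ⟨fun U W _ _ _ _ f hf g => ?_⟩
  obtain ⟨h1, hh1⟩ := hX.out f hf (LinearMap.fst B X Y ∘ₗ g)
  obtain ⟨h2, hh2⟩ := hY.out f hf (LinearMap.snd B X Y ∘ₗ g)
  refine ⟨h1.prod h2, fun x => ?_⟩
  ext
  · simpa using hh1 x
  · simpa using hh2 x

/-- `X` is a retract of `Y` up to a map factoring through an injective torsion-free module. -/
def SR (e : B) (X Y : Type u) [AddCommGroup X] [Module B X] [AddCommGroup Y] [Module B Y] : Prop :=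
  ∃ (f : X →ₗ[B] Y) (g : Y →ₗ[B] X) (K : ModuleCat.{u} B) (s : X →ₗ[B] K) (p : K →ₗ[B] X),
    Module.Injective B K ∧ Tf e K ∧ ∀ x, x = g (f x) + p (s x)

theorem SR.tf {e : B} {X Y : Type u} [AddCommGroup X] [Module B X] [AddCommGroup Y] [Module B Y]
    (h : SR e X Y) (hY : Tf e Y) : Tf e X := by
  obtain ⟨f, g, K, s, p, -, hK, hx⟩ := h
  intro x hx'
  rw [hx x, hY.map_eq_zero f x hx', hK.map_eq_zero s x hx']
  simp

theorem SR.step {e : B} {X Y : Type u} [AddCommGroup X] [Module B X] [AddCommGroup Y] [Module B Y]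
    (h : SR e X Y) {J I : Type u} [AddCommGroup J] [Module B J] [AddCommGroup I] [Module B I]
    (ιX : X →ₗ[B] J) (ιY : Y →ₗ[B] I) (hX : Function.Injective ιX) (hY : Function.Injective ιY)
    (hJ : Module.Injective B J) (hI : Module.Injective B I) (hJ' : Tf e J)
    (U : Submodule B J) (W : Submodule B I) (hU : U = LinearMap.range ιX)
    (hW : W = LinearMap.range ιY) : SR e (J ⧸ U) (I ⧸ W) := by
  subst hU hW
  obtain ⟨f, g, K, s, p, hK, -, hx⟩ := h
  obtain ⟨f', hf'⟩ := hI.out ιX hX (ιY ∘ₗ f)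
  obtain ⟨g', hg'⟩ := hJ.out ιY hY (ιX ∘ₗ g)
  obtain ⟨s', hs'⟩ := hK.out ιX hX s
  let h0 : J →ₗ[B] J := LinearMap.id - g' ∘ₗ f' - ιX ∘ₗ p ∘ₗ s'
  have hh0 : LinearMap.range ιX ≤ LinearMap.ker h0 := by
    rintro _ ⟨x, rfl⟩
    simp only [h0, LinearMap.mem_ker, LinearMap.sub_apply, LinearMap.id_apply,
      LinearMap.comp_apply, hf', hg', hs']
    conv_lhs => rw [sub_sub, ← map_add, ← hx x]
    exact sub_self _
  refine ⟨Submodule.mapQ _ _ f' ?_, Submodule.mapQ _ _ g' ?_, ModuleCat.of B J,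
    (LinearMap.range ιX).liftQ h0 hh0, (LinearMap.range ιX).mkQ, hJ, hJ', ?_⟩
  · rintro _ ⟨x, rfl⟩
    exact ⟨f x, by simp [hf']⟩
  · rintro _ ⟨x, rfl⟩
    exact ⟨g x, by simp [hg']⟩
  · intro x
    obtain ⟨x, rfl⟩ := (LinearMap.range ιX).mkQ_surjective x
    have h1 : (LinearMap.range ιX).mkQ (ιX (p (s' x))) = 0 := by
      simp
    change (LinearMap.range ιX).mkQ x = (LinearMap.range ιX).mkQ (g' (f' x)) +
      (LinearMap.range ιX).mkQ (h0 x)
    simp only [h0, LinearMap.sub_apply, LinearMap.id_apply, LinearMap.comp_apply, map_sub, h1]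
    abel

theorem liftQ_inj {J0 J1 J2 : Type u} [AddCommGroup J0] [Module B J0] [AddCommGroup J1]
    [Module B J1] [AddCommGroup J2] [Module B J2] (a : J0 →ₗ[B] J1) (b : J1 →ₗ[B] J2)
    (h : Function.Exact a b) :
    ∃ c : (J1 ⧸ LinearMap.range a) →ₗ[B] J2, Function.Injective c ∧
      LinearMap.range b = LinearMap.range c := by
  have h1 : LinearMap.ker b = LinearMap.range a := LinearMap.exact_iff.1 h
  refine ⟨(LinearMap.range a).liftQ b h1.ge, ?_, ?_⟩
  · rw [← LinearMap.ker_eq_bot]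
    exact Submodule.ker_liftQ_eq_bot _ _ _ h1.le
  · rw [Submodule.range_liftQ]

theorem compare (e : B) (KJ KI : ℕ → ModuleCat.{u} B)
    (δJ : ∀ j, KJ j →ₗ[B] KJ (j + 1)) (δI : ∀ j, KI j →ₗ[B] KI (j + 1)) (t : ℕ)
    (h0 : SR e (KJ 0) (KI 0)) (injJ : Function.Injective (δJ 0))
    (injI : Function.Injective (δI 0))
    (exJ : ∀ i < t, Function.Exact (δJ i) (δJ (i + 1)))
    (exI : ∀ i ≤ t, Function.Exact (δI i) (δI (i + 1)))
    (hJ : ∀ j ≤ t, Module.Injective B (KJ (j + 1)) ∧ Tf e (KJ (j + 1)))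
    (hI : ∀ j ≤ t, Module.Injective B (KI (j + 1))) (hI' : Tf e (KI (t + 2))) :
    Tf e (KJ (t + 1) ⧸ LinearMap.range (δJ t)) := by
  have key : ∀ j ≤ t, SR e (KJ (j + 1) ⧸ LinearMap.range (δJ j))
      (KI (j + 1) ⧸ LinearMap.range (δI j)) := by
    intro j
    induction j with
    | zero =>
      intro h
      exact h0.step (δJ 0) (δI 0) injJ injI (hJ 0 h).1 (hI 0 h) (hJ 0 h).2 _ _ rfl rfl
    | succ j ih =>
      intro h
      obtain ⟨cJ, hcJ, hcJ'⟩ := liftQ_inj _ _ (exJ j (by omega))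
      obtain ⟨cI, hcI, hcI'⟩ := liftQ_inj _ _ (exI j (by omega))
      exact (ih (by omega)).step cJ cI hcJ hcI (hJ _ h).1 (hI _ h) (hJ _ h).2 _ _ hcJ' hcI'
  obtain ⟨cI, hcI, -⟩ := liftQ_inj _ _ (exI t le_rfl)
  exact (key t le_rfl).tf (Tf.of_injective cI hcI hI')

/-- The condition of the frozen statement: dominant dimension at least `m`. -/
def PP (B : Type u) [Ring B] (m : ℕ) : Prop :=
  ∃ (I : ℕ → ModuleCat.{u} B) (ε : B →ₗ[B] I 0)
    (d : ∀ i, I i →ₗ[B] I (i + 1)),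
    Function.Injective ε ∧
    (1 < m → Function.Exact ε (d 0)) ∧
    (∀ i, i + 2 < m → Function.Exact (d i) (d (i + 1))) ∧
    ∀ j, j < m → Module.Projective B (I j) ∧ Module.Injective B (I j)

/-- Prepend an object to a sequence. -/
def pre (X : ModuleCat.{u} B) (I : ℕ → ModuleCat.{u} B) : ℕ → ModuleCat.{u} B
  | 0 => X
  | j + 1 => I j

/-- Prepend a map to a sequence of maps. -/
def preδ (X : ModuleCat.{u} B) (I : ℕ → ModuleCat.{u} B) (ε : X →ₗ[B] I 0)
    (d : ∀ i, I i →ₗ[B] I (i + 1)) : ∀ j, pre X I j →ₗ[B] pre X I (j + 1)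
  | 0 => ε
  | j + 1 => d j

theorem not_PP (e : B) (J : ℕ → ModuleCat.{u} B) (ε : B →ₗ[B] J 0)
    (d : ∀ i, J i →ₗ[B] J (i + 1)) (t : ℕ)
    (hε : Function.Injective ε) (ex0 : Function.Exact ε (d 0))
    (ex : ∀ i < t, Function.Exact (d i) (d (i + 1)))
    (hJ : ∀ j, Module.Injective B (J j) ∧ Tf e (J j))
    (hn : ¬ Tf e (J (t + 1) ⧸ LinearMap.range (d t))) : ¬ PP B (t + 3) := by
  rintro ⟨I, εI, dI, h1, h2, h3, h4⟩
  apply hn
  have hB : Tf e B := Tf.of_injective ε hε (hJ 0).2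
  refine compare e (pre (ModuleCat.of B B) J) (pre (ModuleCat.of B B) I)
    (preδ _ J ε d) (preδ _ I εI dI) (t + 1) ?_ hε h1 ?_ ?_ (fun j _ => hJ j)
    (fun j hj => (h4 j (by omega)).2) (hB.of_projective (h4 (t + 2) (by omega)).1)
  · exact ⟨LinearMap.id, LinearMap.id, J 0, 0, 0, (hJ 0).1, (hJ 0).2, fun x => (add_zero x).symm⟩
  · intro i hi
    cases i with
    | zero => exact ex0
    | succ i => exact ex i (by omega)
  · intro i hi
    cases i with
    | zero => exact h2 (by omega)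
    | succ i => exact h3 i (by omega)

end Compare

end Pool.Agent.Lib.MP_1ef125_al.Gen
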