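import Mathlib
import Pool.Agent.Lib.MP_1ef125_al.Gen.Compare

universe u

namespace Pool.Agent.Lib.MP_1ef125_al.Gen

section ProjInj

variable {k : Type u} [Field k] {A : Type u} [Ring A] [Algebra k A] [FiniteDimensional k A]
  {G : Type u} [AddCommGroup G] [Module A G] [Module k G] [IsScalarTower k A G]
  [FiniteDimensional k G]

omit [FiniteDimensional k G] in
/-- Every linear functional on `G` is `lam ∘ φ` for an `A`-linear `φ`. -/
theorem exists_phi (lam : A →ₗ[k] k) (hlam : ∀ y : A, (∀ a, lam (a * y) = 0) → y = 0)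
    (l : G →ₗ[k] k) : ∃ φ : G →ₗ[A] A, ∀ g, lam (φ g) = l g := by
  let Θ : A →ₗ[k] Module.Dual k A := (LinearMap.mul k A).flip.compr₂ lam
  have hΘ : ∀ y a, Θ y a = lam (a * y) := fun y a => rfl
  have hinj : Function.Injective Θ := by
    rw [← LinearMap.ker_eq_bot, Submodule.eq_bot_iff]
    intro y hy
    apply hlam
    intro a
    rw [← hΘ, LinearMap.mem_ker.1 hy]
    rfl
  have hsurj : Function.Surjective Θ :=
    (LinearMap.injective_iff_surjective_of_finrank_eq_finrank
      (Subspace.dual_finrank_eq (K := k) (V := A)).symm).1 hinj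
  have hex : ∀ g : G, ∃ y : A, ∀ a, lam (a * y) = l (a • g) := by
    intro g
    obtain ⟨y, hy⟩ := hsurj (l ∘ₗ (LinearMap.toSpanSingleton A G g).restrictScalars k)
    refine ⟨y, fun a => ?_⟩
    rw [← hΘ, hy]
    simp
  choose y hy using hex
  have uniq : ∀ z z' : A, (∀ a, lam (a * z) = lam (a * z')) → z = z' := by
    intro z z' h
    rw [← sub_eq_zero]
    apply hlam
    intro a
    rw [mul_sub, map_sub, h, sub_self]
  refine ⟨⟨⟨y, fun g g' => uniq _ _ fun a => ?_⟩, fun c g => uniq _ _ fun a => ?_⟩, fun g => ?_⟩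
  · rw [mul_add, map_add, hy, hy, hy, smul_add, map_add]
  · simp only [RingHom.id_apply, smul_eq_mul]
    rw [hy, ← mul_assoc, hy, mul_smul]
  · have := hy g 1
    simpa using this

omit [FiniteDimensional k G] in
theorem sep (lam : A →ₗ[k] k) (hlam : ∀ y : A, (∀ a, lam (a * y) = 0) → y = 0)
    (g : G) (hg : ∀ φ : G →ₗ[A] A, lam (φ g) = 0) : g = 0 := by
  rw [← Module.forall_dual_apply_eq_zero_iff k]
  intro l
  obtain ⟨φ, hφ⟩ := exists_phi lam hlam l
  rw [← hφ, hg]

theorem exists_rep (lam : A →ₗ[k] k) (hlam : ∀ y : A, (∀ a, lam (a * y) = 0) → y = 0)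
    (L : (G →ₗ[A] A) →ₗ[k] k) : ∃ y : G, ∀ φ : G →ₗ[A] A, lam (φ y) = L φ := by
  let Ψ : (G →ₗ[A] A) →ₗ[k] Module.Dual k G :=
    { toFun := fun φ => lam ∘ₗ φ.restrictScalars k
      map_add' := fun φ ψ => by ext; simp
      map_smul' := fun c φ => by ext; simp }
  have hinj : Function.Injective Ψ := by
    rw [← LinearMap.ker_eq_bot, Submodule.eq_bot_iff]
    intro φ hφ
    ext g
    apply hlam
    intro a
    have := LinearMap.congr_fun (LinearMap.mem_ker.1 hφ) (a • g)
    simpa [Ψ] using this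
  have hsurj : Function.Surjective Ψ := by
    intro l
    obtain ⟨φ, hφ⟩ := exists_phi lam hlam l
    exact ⟨φ, LinearMap.ext hφ⟩
  let E := LinearEquiv.ofBijective Ψ ⟨hinj, hsurj⟩
  obtain ⟨y, hy⟩ := (Module.evalEquiv k G).surjective (L ∘ₗ E.symm.toLinearMap)
  refine ⟨y, fun φ => ?_⟩
  have := LinearMap.congr_fun hy (E φ)
  simp only [Module.evalEquiv_apply, Module.Dual.eval_apply, LinearMap.comp_apply,
    LinearEquiv.coe_coe, LinearEquiv.symm_apply_apply] at this
  rw [← this]
  rfl

omit [FiniteDimensional k A] [FiniteDimensional k G] in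
theorem projG (i : A →ₗ[A] G) (p : G →ₗ[A] A) (hpi : ∀ a, p (i a) = a) :
    Module.Projective (Module.End A G) G := by
  refine Module.Projective.of_split (M := Module.End A G)
    { toFun := fun g => LinearMap.toSpanSingleton A G g ∘ₗ p
      map_add' := fun g g' => by ext; simp
      map_smul' := fun b g => by ext; simp }
    (LinearMap.toSpanSingleton (Module.End A G) G (i 1)) ?_
  ext g
  simp [hpi]

omit [FiniteDimensional k G] in
theorem tfG (lam : A →ₗ[k] k) (hlam : ∀ y : A, (∀ a, lam (a * y) = 0) → y = 0)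
    (i : A →ₗ[A] G) (p : G →ₗ[A] A) (hpi : ∀ a, p (i a) = a) :
    Tf (B := Module.End A G) (i ∘ₗ p) G := by
  intro g hg
  apply sep lam hlam
  intro φ
  have := congrArg p (hg (i ∘ₗ φ))
  simp only [Module.End.smul_def, Module.End.mul_apply, LinearMap.comp_apply, hpi,
    map_zero] at this
  rw [this, map_zero]

theorem injG (lam : A →ₗ[k] k) (hlam : ∀ y : A, (∀ a, lam (a * y) = 0) → y = 0)
    (i : A →ₗ[A] G) (p : G →ₗ[A] A) (hpi : ∀ a, p (i a) = a) :
    Module.Injective (Module.End A G) G := by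
  apply Module.Baer.injective
  intro I g
  let l0 : (I.restrictScalars k) →ₗ[k] k :=
    { toFun := fun x => lam (p (g ⟨x.1, x.2⟩))
      map_add' := fun x y => by
        rw [← map_add, ← map_add, ← map_add]; rfl
      map_smul' := fun c x => by
        have h1 : (⟨(c • x).1, (c • x).2⟩ : I) =
            (algebraMap k (Module.End A G) c) • (⟨x.1, x.2⟩ : I) := by
          apply Subtype.ext
          exact Algebra.smul_def c x.1
        rw [h1, map_smul]
        simp }
  obtain ⟨l1, hl1⟩ := LinearMap.exists_extend l0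
  have hl : ∀ (x : Module.End A G) (hx : x ∈ I), l1 x = lam (p (g ⟨x, hx⟩)) := by
    intro x hx
    exact LinearMap.congr_fun hl1 ⟨x, hx⟩
  let L : (G →ₗ[A] A) →ₗ[k] k :=
    { toFun := fun φ => l1 (i ∘ₗ φ)
      map_add' := fun φ ψ => by rw [LinearMap.comp_add, map_add]
      map_smul' := fun c φ => by
        rw [RingHom.id_apply, ← map_smul]
        congr 1
        ext x
        simp }
  obtain ⟨y, hy⟩ := exists_rep lam hlam L
  refine ⟨LinearMap.toSpanSingleton _ G y, fun x hx => ?_⟩
  rw [← sub_eq_zero]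
  apply sep lam hlam
  intro φ
  have h1 : lam (φ (x y)) = l1 ((i ∘ₗ φ) * x) := hy (φ ∘ₗ x)
  have h2 : (⟨(i ∘ₗ φ) * x, I.mul_mem_left _ hx⟩ : I) =
      (show Module.End A G from i ∘ₗ φ) • (⟨x, hx⟩ : I) := rfl
  rw [hl _ (I.mul_mem_left _ hx), h2, map_smul] at h1
  simp only [Module.End.smul_def, LinearMap.comp_apply, hpi] at h1
  simp [map_sub, h1]

end ProjInj

section Simples

variable {k : Type u} [Field k] {B : Type u} [Ring B] [Algebra k B]

/-- The one-dimensional module given by a character. -/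
def chMod (χ : B →ₐ[k] k) : ModuleCat.{u} B :=
  @ModuleCat.of B _ k _ (Module.compHom k χ.toRingHom)

/-- The underlying scalar of an element of `chMod χ`. -/
def chVal (χ : B →ₐ[k] k) (x : chMod χ) : k := x

theorem chVal_smul (χ : B →ₐ[k] k) (b : B) (x : chMod χ) :
    chVal χ (b • x) = χ b * chVal χ x := rfl

theorem chVal_add (χ : B →ₐ[k] k) (x y : chMod χ) :
    chVal χ (x + y) = chVal χ x + chVal χ y := rfl

theorem chVal_zero (χ : B →ₐ[k] k) : chVal χ 0 = 0 := rfl

theorem chVal_inj (χ : B →ₐ[k] k) {x y : chMod χ} (h : chVal χ x = chVal χ y) : x = y := h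

theorem chVal_surj (χ : B →ₐ[k] k) (c : k) : ∃ x, chVal χ x = c := ⟨c, rfl⟩

theorem chMod_simple (χ : B →ₐ[k] k) : IsSimpleModule B (chMod χ) := by
  rw [isSimpleModule_iff_toSpanSingleton_surjective]
  obtain ⟨x0, hx0⟩ := chVal_surj χ 0
  obtain ⟨x1, hx1⟩ := chVal_surj χ 1
  refine ⟨⟨x0, x1, fun h => ?_⟩, fun x hx y => ?_⟩
  · rw [h, hx1] at hx0
    exact one_ne_zero hx0
  · have hx' : chVal χ x ≠ 0 := fun h => hx (chVal_inj χ (h.trans (chVal_zero χ).symm))
    refine ⟨algebraMap k B (chVal χ y * (chVal χ x)⁻¹), chVal_inj χ ?_⟩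
    rw [LinearMap.toSpanSingleton_apply, chVal_smul, AlgHom.commutes]
    simp [hx']

theorem simples (χ : Fin 2 → (B →ₐ[k] k)) (e : Fin 2 → B)
    (he : ∀ i j, χ i (e j) = if i = j then 1 else 0)
    (hnil : ∀ b : B, (∀ i, χ i b = 0) → IsNilpotent b) :
    (∀ i, IsSimpleModule B (chMod (χ i))) ∧
    (∀ i j, Nonempty (chMod (χ i) ≃ₗ[B] chMod (χ j)) → i = j) ∧
    (∀ M : ModuleCat.{u} B, IsSimpleModule B M → ∃ i, Nonempty (M ≃ₗ[B] chMod (χ i))) := by
  refine ⟨fun i => chMod_simple _, fun i j ⟨f⟩ => ?_, fun M hM => ?_⟩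
  · by_contra hij
    obtain ⟨x1, hx1⟩ := chVal_surj (χ i) 1
    have h1 : e i • x1 = x1 := chVal_inj _ (by rw [chVal_smul, he]; simp)
    have h2 : e i • f x1 = 0 := chVal_inj _ (by
      rw [chVal_smul, he, if_neg (Ne.symm hij), zero_mul, chVal_zero])
    rw [← map_smul, h1, LinearEquiv.map_eq_zero_iff] at h2
    rw [h2, chVal_zero] at hx1
    exact zero_ne_one hx1
  · have hkill : ∀ b : B, (∀ i, χ i b = 0) → ∀ s : M, b • s = 0 := by
      intro b hb s
      by_contra hs
      obtain ⟨c, hc⟩ := IsSimpleModule.toSpanSingleton_surjective B hs s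
      rw [LinearMap.toSpanSingleton_apply, ← mul_smul] at hc
      obtain ⟨n, hn⟩ := hnil (c * b) (fun i => by rw [map_mul, hb, mul_zero])
      have h3 : ∀ m : ℕ, (c * b) ^ m • s = s := by
        intro m
        induction m with
        | zero => simp
        | succ m ih => rw [pow_succ, mul_smul, hc, ih]
      have h4 := h3 n
      rw [hn, zero_smul] at h4
      apply hs
      rw [← h4, smul_zero]
    have := IsSimpleModule.nontrivial B M
    obtain ⟨s, hs⟩ := exists_ne (0 : M)
    have h1 : ∃ i, e i • s ≠ 0 := by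
      by_contra hne
      push Not at hne
      have := hkill (1 - e 0 - e 1) (fun i => by
        fin_cases i <;> simp [he]) s
      rw [sub_smul, sub_smul, hne, hne, one_smul] at this
      exact hs (by simpa using this)
    obtain ⟨i, hi⟩ := h1
    have h2 : ∀ b : B, b • (e i • s) = algebraMap k B (χ i b) • (e i • s) := by
      intro b
      have := hkill (b * e i - algebraMap k B (χ i b) * e i) (fun j => by
        by_cases hij : j = i
        · subst hij; simp
        · simp [he, hij]) s
      rwa [sub_smul, mul_smul, mul_smul, sub_eq_zero] at this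
    let f : chMod (χ i) →ₗ[B] M :=
      { toFun := fun c => algebraMap k B (chVal _ c) • (e i • s)
        map_add' := fun c d => by rw [chVal_add, map_add, add_smul]
        map_smul' := fun b c => by
          rw [chVal_smul, RingHom.id_apply, ← mul_smul b, h2 (b * _), map_mul (χ i),
            AlgHom.commutes]
          rfl }
    have hf : f ≠ 0 := by
      intro h
      obtain ⟨x1, hx1⟩ := chVal_surj (χ i) 1
      have := LinearMap.congr_fun h x1
      simp only [f, LinearMap.coe_mk, AddHom.coe_mk, hx1, map_one, one_smul,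
        LinearMap.zero_apply] at this
      exact hi this
    have := chMod_simple (χ i)
    exact ⟨i, ⟨(LinearEquiv.ofBijective f (LinearMap.bijective_of_ne_zero hf)).symm⟩⟩

end Simples

end Pool.Agent.Lib.MP_1ef125_al.Gen
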