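import Mathlib
import Pool.Agent.Lib.MP_1ef125_al.Gen.ProjInj

universe u

namespace Pool.Agent.Lib.MP_1ef125_al.Gen

/-- The data of a local Frobenius algebra with a periodic chain of exact zero divisors. -/
structure Chain (k : Type u) [Field k] (A : Type u) [Ring A] [Algebra k A] (r : ℕ) where
  lam : A →ₗ[k] k
  hlam : ∀ y : A, (∀ a, lam (a * y) = 0) → y = 0
  χ : A →ₐ[k] k
  Fil : ℕ → A → Prop
  fil_one : Fil 0 1
  fil_mul : ∀ j a b, Fil j a → χ b = 0 → Fil (j + 1) (a * b)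
  D : ℕ
  fil_top : ∀ a, Fil D a → a = 0
  u : ℕ → A
  χu : ∀ i, χ (u i) = 0
  uu : ∀ i, u (i + 1) * u i = 0
  exA : ∀ i y, u (i + 1) * y = 0 → ∃ z, y = u i * z
  exM : ∀ i, i + 1 < r → ∀ y x, u (i + 1) * y = x * u 0 → ∃ z x', y = u i * z + x' * u 0
  per : u r = u 0

variable {k : Type u} [Field k] {A : Type u} [Ring A] [Algebra k A] {r : ℕ}

namespace Chain

variable (C : Chain k A r)

/-- The left ideal `A u₀`. -/
abbrev N : Submodule A A := Submodule.span A {C.u 0}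

/-- The generator `A ⊕ A / A u₀`. -/
abbrev G : Type u := A × (A ⧸ C.N)

/-- Its endomorphism algebra. -/
abbrev BB : Type u := Module.End A C.G

/-- First generator. -/
def g1 : C.G := (1, 0)

/-- Second generator. -/
def g2 : C.G := (0, C.N.mkQ 1)

theorem gen (g : C.G) : ∃ a1 a2 : A, g = a1 • C.g1 + a2 • C.g2 := by
  obtain ⟨a, m⟩ := g
  obtain ⟨m, rfl⟩ := C.N.mkQ_surjective m
  refine ⟨a, m, ?_⟩
  ext
  · simp [g1, g2]
  · simp only [g1, g2, Prod.snd_add, Prod.smul_snd, smul_zero, zero_add]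
    rw [← map_smul, smul_eq_mul, mul_one]

theorem u0_g2 : C.u 0 • C.g2 = 0 := by
  ext
  · simp [g2]
  · simp only [g2, Prod.smul_snd, Prod.snd_zero]
    rw [← map_smul, smul_eq_mul, mul_one, Submodule.mkQ_apply, Submodule.Quotient.mk_eq_zero]
    exact Submodule.subset_span rfl

theorem χN (x : A) (hx : x ∈ C.N) : C.χ x = 0 := by
  obtain ⟨a, rfl⟩ := Submodule.mem_span_singleton.1 hx
  rw [smul_eq_mul, map_mul, C.χu, mul_zero]

/-- Top coefficient in the first summand. -/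
def c1 (g : C.G) : k := C.χ g.1

/-- Top coefficient in the second summand. -/
noncomputable def c2 (g : C.G) : k :=
  Quotient.lift (s := C.N.quotientRel) (fun x => C.χ x) (fun x y h => by
    have := C.χN _ ((Submodule.quotientRel_def _).1 h)
    rwa [map_sub, sub_eq_zero] at this) g.2

theorem c1_comb (a1 a2 : A) : C.c1 (a1 • C.g1 + a2 • C.g2) = C.χ a1 := by
  simp [c1, g1, g2]

theorem c2_comb (a1 a2 : A) : C.c2 (a1 • C.g1 + a2 • C.g2) = C.χ a2 := by
  have : (a1 • C.g1 + a2 • C.g2).2 = C.N.mkQ a2 := by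
    simp only [g1, g2, Prod.snd_add, Prod.smul_snd, smul_zero, zero_add]
    rw [← map_smul, smul_eq_mul, mul_one]
  unfold c2
  rw [this]
  rfl

theorem c1_lin (a b : A) (g g' : C.G) :
    C.c1 (a • g + b • g') = C.χ a * C.c1 g + C.χ b * C.c1 g' := by
  simp [c1]

theorem c2_lin (a b : A) (g g' : C.G) :
    C.c2 (a • g + b • g') = C.χ a * C.c2 g + C.χ b * C.c2 g' := by
  obtain ⟨a1, a2, rfl⟩ := C.gen g
  obtain ⟨b1, b2, rfl⟩ := C.gen g'
  have : a • (a1 • C.g1 + a2 • C.g2) + b • (b1 • C.g1 + b2 • C.g2) =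
      (a * a1 + b * b1) • C.g1 + (a * a2 + b * b2) • C.g2 := by
    simp only [smul_add, add_smul, mul_smul]
    abel
  rw [this, c2_comb, c2_comb, c2_comb]
  simp

theorem c1_g1 : C.c1 C.g1 = 1 := by simpa using C.c1_comb 1 0
theorem c1_g2 : C.c1 C.g2 = 0 := by simpa using C.c1_comb 0 1
theorem c2_g1 : C.c2 C.g1 = 0 := by simpa using C.c2_comb 1 0
theorem c2_g2 : C.c2 C.g2 = 1 := by simpa using C.c2_comb 0 1
theorem c1_zero : C.c1 0 = 0 := by simpa using C.c1_comb 0 0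
theorem c2_zero : C.c2 0 = 0 := by simpa using C.c2_comb 0 0

theorem c1_b_g2 (hr : 0 < r) (b : C.BB) : C.c1 (b C.g2) = 0 := by
  have h1 : C.u 0 * (b C.g2).1 = 0 := by
    have := congrArg (fun g => (b g).1) C.u0_g2
    simpa using this
  obtain ⟨r', rfl⟩ : ∃ r', r = r' + 1 := ⟨r - 1, by omega⟩
  rw [← C.per] at h1
  obtain ⟨z, hz⟩ := C.exA _ _ h1
  unfold c1
  rw [hz, map_mul, C.χu, zero_mul]

theorem c1_b (hr : 0 < r) (b : C.BB) (g : C.G) : C.c1 (b g) = C.c1 (b C.g1) * C.c1 g := by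
  obtain ⟨a1, a2, rfl⟩ := C.gen g
  rw [map_add, map_smul, map_smul, c1_lin, c1_comb, C.c1_b_g2 hr]
  ring

theorem c2_b (b : C.BB) (g : C.G) :
    C.c2 (b g) = C.c2 (b C.g1) * C.c1 g + C.c2 (b C.g2) * C.c2 g := by
  obtain ⟨a1, a2, rfl⟩ := C.gen g
  rw [map_add, map_smul, map_smul, c2_lin, c1_comb, C.c2_comb]
  ring

theorem c1_add (g g' : C.G) : C.c1 (g + g') = C.c1 g + C.c1 g' := by
  simpa using C.c1_lin 1 1 g g'

theorem c2_add (g g' : C.G) : C.c2 (g + g') = C.c2 g + C.c2 g' := by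
  simpa using C.c2_lin 1 1 g g'

theorem c1_smul (c : k) (g : C.G) : C.c1 (c • g) = c * C.c1 g := by
  have := C.c1_lin (algebraMap k A c) 0 g 0
  simpa using this

theorem c2_smul (c : k) (g : C.G) : C.c2 (c • g) = c * C.c2 g := by
  have := C.c2_lin (algebraMap k A c) 0 g 0
  simpa using this

/-- First character of the endomorphism algebra. -/
def χ1 (hr : 0 < r) : C.BB →ₐ[k] k where
  toFun b := C.c1 (b C.g1)
  map_one' := C.c1_g1
  map_mul' b b' := by rw [Module.End.mul_apply, C.c1_b hr]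
  map_zero' := C.c1_zero
  map_add' b b' := C.c1_add _ _
  commutes' c := by
    rw [Module.algebraMap_end_apply, c1_smul, c1_g1]
    simp

/-- Second character of the endomorphism algebra. -/
noncomputable def χ2 (hr : 0 < r) : C.BB →ₐ[k] k where
  toFun b := C.c2 (b C.g2)
  map_one' := C.c2_g2
  map_mul' b b' := by rw [Module.End.mul_apply, C.c2_b, C.c1_b_g2 hr]; ring
  map_zero' := C.c2_zero
  map_add' b b' := C.c2_add _ _
  commutes' c := by
    rw [Module.algebraMap_end_apply, c2_smul, c2_g2]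
    simp

theorem nil (hr : 0 < r) (b : C.BB) (h1 : C.χ1 hr b = 0) (h2 : C.χ2 hr b = 0) :
    IsNilpotent b := by
  have h1' : C.c1 (b C.g1) = 0 := h1
  have h2' : C.c2 (b C.g2) = 0 := h2
  have hb1 : ∀ g, C.c1 (b g) = 0 := fun g => by rw [C.c1_b hr, h1', zero_mul]
  have hb2 : ∀ g, C.c2 (b (b g)) = 0 := fun g => by rw [C.c2_b, h2', hb1]; ring
  have key : ∀ j g, ((b * b) ^ j) g ∈
      AddSubmonoid.closure {x : C.G | ∃ a g', C.Fil j a ∧ x = a • g'} := by
    intro j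
    induction j with
    | zero => intro g; exact AddSubmonoid.subset_closure ⟨1, g, C.fil_one, by simp⟩
    | succ j ih =>
      intro g
      rw [pow_succ', Module.End.mul_apply]
      refine AddSubmonoid.closure_induction (motive := fun x _ => (b * b) x ∈
        AddSubmonoid.closure {x : C.G | ∃ a g', C.Fil (j + 1) a ∧ x = a • g'}) ?_ ?_ ?_ (ih g)
      · rintro x ⟨a, g', ha, rfl⟩
        obtain ⟨a1, a2, h⟩ := C.gen ((b * b) g')
        have e1 : C.χ a1 = 0 := by rw [← C.c1_comb a1 a2, ← h]; exact hb1 _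
        have e2 : C.χ a2 = 0 := by rw [← C.c2_comb a1 a2, ← h]; exact hb2 _
        rw [map_smul, h, smul_add, ← mul_smul, ← mul_smul]
        exact add_mem (AddSubmonoid.subset_closure ⟨_, _, C.fil_mul _ _ _ ha e1, rfl⟩)
          (AddSubmonoid.subset_closure ⟨_, _, C.fil_mul _ _ _ ha e2, rfl⟩)
      · rw [map_zero]; exact zero_mem _
      · intro x y _ _ hx hy
        rw [map_add]; exact add_mem hx hy
  refine ⟨2 * C.D, ?_⟩
  rw [pow_mul, pow_two]
  refine LinearMap.ext fun g => ?_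
  have h := key C.D g
  have : AddSubmonoid.closure {x : C.G | ∃ a g', C.Fil C.D a ∧ x = a • g'} ≤ ⊥ := by
    rw [AddSubmonoid.closure_le]
    rintro x ⟨a, g', ha, rfl⟩
    rw [C.fil_top a ha]
    simp
  exact this h

/-- Left multiplication by an element of `A`, as a `B`-linear map. -/
def act (a : A) : C.G →ₗ[C.BB] C.G where
  toFun g := a • g
  map_add' := smul_add a
  map_smul' b g := (map_smul b a g).symm

/-- The terms of the coresolution. -/
noncomputable def J : ℕ → ModuleCat.{u} C.BB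
  | 0 => ModuleCat.of C.BB (C.G × C.G)
  | _ + 1 => ModuleCat.of C.BB C.G

/-- The coaugmentation. -/
noncomputable def ε : C.BB →ₗ[C.BB] C.J 0 :=
  (LinearMap.toSpanSingleton C.BB C.G C.g1).prod (LinearMap.toSpanSingleton C.BB C.G C.g2)

/-- The differentials. -/
noncomputable def d : ∀ i, C.J i →ₗ[C.BB] C.J (i + 1)
  | 0 => C.act (C.u 0) ∘ₗ LinearMap.snd C.BB C.G C.G
  | i + 1 => C.act (C.u (i + 1))

theorem ε_inj : Function.Injective C.ε := by
  rw [← LinearMap.ker_eq_bot, Submodule.eq_bot_iff]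
  intro b hb
  have h : (b C.g1, b C.g2) = (0 : C.G × C.G) := hb
  rw [Prod.mk_eq_zero] at h
  refine LinearMap.ext fun g => ?_
  obtain ⟨a1, a2, rfl⟩ := C.gen g
  simp [h.1, h.2]

theorem ex0 : Function.Exact C.ε (C.d 0) := by
  rintro ⟨g, g'⟩
  constructor
  · intro h
    have h' : C.u 0 • g' = 0 := h
    have hle : C.N ≤ LinearMap.ker (LinearMap.toSpanSingleton A C.G g') := by
      rw [Submodule.span_le, Set.singleton_subset_iff]
      exact h'
    refine ⟨(LinearMap.toSpanSingleton A C.G g).coprod (C.N.liftQ _ hle), ?_⟩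
    change ((LinearMap.toSpanSingleton A C.G g).coprod (C.N.liftQ _ hle) C.g1,
      (LinearMap.toSpanSingleton A C.G g).coprod (C.N.liftQ _ hle) C.g2) = (g, g')
    simp [g1, g2]
  · rintro ⟨b, hb⟩
    have h : (b C.g1, b C.g2) = (g, g') := hb
    change C.u 0 • g' = 0
    rw [← (Prod.mk.inj h).2, ← map_smul, u0_g2, map_zero]

theorem range_d (i : ℕ) (x : C.G) :
    (x : C.J (i + 1)) ∈ Set.range (C.d i) ↔ ∃ y : C.G, C.u i • y = x := by
  cases i with
  | zero =>
    constructor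
    · rintro ⟨y, hy⟩
      exact ⟨(y : C.G × C.G).2, hy⟩
    · rintro ⟨y, hy⟩
      exact ⟨((0, y) : C.G × C.G), hy⟩
  | succ i => rfl

theorem ex (i : ℕ) (hi : i + 1 < r) : Function.Exact (C.d i) (C.d (i + 1)) := by
  intro x
  refine Iff.trans ?_ (C.range_d i x).symm
  change C.u (i + 1) • (show C.G from x) = 0 ↔ _
  constructor
  · intro h
    obtain ⟨a, m⟩ := x
    obtain ⟨m, rfl⟩ := C.N.mkQ_surjective m
    have h1 : C.u (i + 1) * a = 0 := congrArg Prod.fst h
    have h2 : C.N.mkQ (C.u (i + 1) * m) = 0 := congrArg Prod.snd h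
    rw [Submodule.mkQ_apply, Submodule.Quotient.mk_eq_zero, Submodule.mem_span_singleton] at h2
    obtain ⟨c, hc⟩ := h2
    obtain ⟨z, hz⟩ := C.exA _ _ h1
    obtain ⟨z', x', hz'⟩ := C.exM i hi _ _ hc.symm
    refine ⟨(z, C.N.mkQ z'), ?_⟩
    refine Prod.ext hz.symm ?_
    change C.N.mkQ (C.u i * z') = C.N.mkQ m
    rw [hz', map_add]
    have : C.N.mkQ (x' * C.u 0) = 0 := by
      rw [Submodule.mkQ_apply, Submodule.Quotient.mk_eq_zero, Submodule.mem_span_singleton]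
      exact ⟨x', rfl⟩
    rw [this, add_zero]
  · rintro ⟨y, rfl⟩
    rw [← mul_smul, C.uu, zero_smul]

/-- The idempotent for the summand `A`. -/
def e : C.BB := LinearMap.inl A A (A ⧸ C.N) ∘ₗ LinearMap.fst A A (A ⧸ C.N)

variable [FiniteDimensional k A]

theorem hJ (j : ℕ) : (Module.Projective C.BB (C.J j) ∧ Module.Injective C.BB (C.J j)) ∧
    Tf C.e (C.J j) := by
  have h1 : Module.Projective C.BB C.G :=
    projG (LinearMap.inl A A (A ⧸ C.N)) (LinearMap.fst A A (A ⧸ C.N)) (fun _ => rfl)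
  have h2 : Module.Injective C.BB C.G :=
    injG C.lam C.hlam (LinearMap.inl A A (A ⧸ C.N)) (LinearMap.fst A A (A ⧸ C.N)) (fun _ => rfl)
  have h3 : Tf C.e C.G :=
    tfG C.lam C.hlam (LinearMap.inl A A (A ⧸ C.N)) (LinearMap.fst A A (A ⧸ C.N)) (fun _ => rfl)
  cases j with
  | zero =>
    exact ⟨⟨(inferInstance : Module.Projective C.BB (C.G × C.G)), injective_prod h2 h2⟩,
      h3.prod h3⟩
  | succ j => exact ⟨⟨h1, h2⟩, h3⟩

theorem pp (m : ℕ) (hm : m ≤ r + 1) : PP C.BB m :=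
  ⟨C.J, C.ε, C.d, C.ε_inj, fun _ => C.ex0, fun i hi => C.ex i (by omega),
    fun j _ => (C.hJ j).1⟩

theorem not_pp (hr : 0 < r) : ¬ PP C.BB (r + 2) := by
  obtain ⟨t, rfl⟩ : ∃ t, r = t + 1 := ⟨r - 1, by omega⟩
  refine not_PP C.e C.J C.ε C.d t C.ε_inj C.ex0 (fun i hi => C.ex i (by omega))
    (fun j => ⟨(C.hJ j).1.2, (C.hJ j).2⟩) ?_
  intro h
  have h1 := h ((LinearMap.range (C.d t)).mkQ (C.g2 : C.J (t + 1))) (fun b => by
    rw [← map_smul, Submodule.mkQ_apply, Submodule.Quotient.mk_eq_zero]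
    refine (C.range_d t _).2 ?_
    have h1 : C.u (t + 1) * (b C.g2).1 = 0 := by
      rw [C.per]
      have := congrArg (fun g => (b g).1) C.u0_g2
      simpa using this
    obtain ⟨z, hz⟩ := C.exA _ _ h1
    refine ⟨(z, 0), ?_⟩
    change C.u t • ((z, 0) : C.G) = (((b C.g2).1, 0) : C.G)
    rw [hz]
    simp)
  rw [Submodule.mkQ_apply, Submodule.Quotient.mk_eq_zero] at h1
  obtain ⟨y, hy⟩ := (C.range_d t _).1 h1
  have h2 := C.c2_lin (C.u t) 0 y 0
  rw [zero_smul, add_zero, hy, C.χu, c2_g2] at h2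
  simp at h2

omit [FiniteDimensional k A] in
theorem main (hr : 0 < r) : ∃ S : Fin 2 → ModuleCat.{u} C.BB,
    (∀ i, IsSimpleModule C.BB (S i)) ∧
    (∀ i j, Nonempty (S i ≃ₗ[C.BB] S j) → i = j) ∧
    (∀ M : ModuleCat.{u} C.BB, IsSimpleModule C.BB M → ∃ i, Nonempty (M ≃ₗ[C.BB] S i)) := by
  refine ⟨_, simples ![C.χ1 hr, C.χ2 hr] ![C.e, 1 - C.e] ?_ ?_⟩
  · have a1 : C.χ1 hr C.e = 1 := C.c1_g1
    have a2 : C.χ2 hr C.e = 0 := C.c2_zero
    intro i j
    fin_cases i <;> fin_cases j <;> simp [a1, a2]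
  · intro b hb
    exact C.nil hr b (hb 0) (hb 1)

include C in
theorem contra (hr : 0 < r) (t : ℕ) (ht : t ≤ r)
    (h : ∀ (B : Type u) [Ring B] [Algebra k B] [FiniteDimensional k B],
      ∀ S : Fin 2 → ModuleCat.{u} B,
      (∀ i, IsSimpleModule B (S i)) →
      (∀ i j, Nonempty (S i ≃ₗ[B] S j) → i = j) →
      (∀ M : ModuleCat.{u} B, IsSimpleModule B M → ∃ i, Nonempty (M ≃ₗ[B] S i)) →
      (∀ m, PP B m) ∨ ¬ PP B (t + 1)) : False := by
  obtain ⟨S, h1, h2, h3⟩ := C.main hr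
  rcases h C.BB S h1 h2 h3 with h4 | h4
  · exact C.not_pp hr (h4 _)
  · exact h4 (C.pp _ (by omega))

end Chain

end Pool.Agent.Lib.MP_1ef125_al.Gen
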