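import Mathlib

universe u

noncomputable section

namespace Pool.Agent.Lib.MP_1ef125_al.Gen

/-- The parameters of the construction: a field and a natural number. -/
structure Par : Type (u + 1) where
  F : Type u
  fld : Field F
  m : ℕ

instance (n : Par.{u}) : Field n.F := n.fld

/-- A coordinate of a product-like type. -/
structure Lens (β α : Type) where
  get : β → α
  set : β → α → β
  get_set : ∀ μ a, get (set μ a) = a
  set_set : ∀ μ a b, set (set μ a) b = set μ b
  set_get : ∀ μ, set μ (get μ) = μ

section Loc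

variable {F : Type u} [Field F] {β α α' : Type} [Fintype α] [Fintype α']

/-- A matrix acting in one coordinate. -/
def loc (l : Lens β α) (M : Matrix α α F) : Module.End F (β → F) where
  toFun f μ := ∑ j, M (l.get μ) j * f (l.set μ j)
  map_add' f g := by
    funext μ
    simp [mul_add, Finset.sum_add_distrib]
  map_smul' c f := by
    funext μ
    simp [Finset.mul_sum, mul_left_comm]

theorem loc_apply (l : Lens β α) (M : Matrix α α F) (f : β → F) (μ : β) :
    loc l M f μ = ∑ j, M (l.get μ) j * f (l.set μ j) := rfl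

theorem loc_mul (l : Lens β α) (M M' : Matrix α α F) :
    loc l M * loc l M' = loc l (M * M') := by
  refine LinearMap.ext fun f => funext fun μ => ?_
  simp only [Module.End.mul_apply, loc_apply, l.get_set, l.set_set, Matrix.mul_apply,
    Finset.mul_sum, Finset.sum_mul, mul_assoc]
  exact Finset.sum_comm

theorem loc_diag [DecidableEq α] (l : Lens β α) (d : α → F) (f : β → F) (μ : β) :
    loc l (Matrix.diagonal d) f μ = d (l.get μ) * f μ := by
  rw [loc_apply, Finset.sum_eq_single (l.get μ)]
  · simp [l.set_get]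
  · intro b _ hb
    simp [Matrix.diagonal_apply_ne _ hb.symm]
  · simp

theorem loc_zero (l : Lens β α) : loc l (0 : Matrix α α F) = 0 := by
  refine LinearMap.ext fun f => funext fun μ => ?_
  simp [loc_apply]

theorem loc_comm (l : Lens β α) (l' : Lens β α') (h1 : ∀ μ a, l'.get (l.set μ a) = l'.get μ)
    (h2 : ∀ μ a, l.get (l'.set μ a) = l.get μ)
    (h3 : ∀ μ a b, l'.set (l.set μ a) b = l.set (l'.set μ b) a)
    (M : Matrix α α F) (M' : Matrix α' α' F) : Commute (loc l M) (loc l' M') := by
  refine LinearMap.ext fun f => funext fun μ => ?_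
  simp only [Module.End.mul_apply, loc_apply, h1, h2, h3, Finset.mul_sum]
  rw [Finset.sum_comm]
  refine Finset.sum_congr rfl fun a _ => Finset.sum_congr rfl fun b _ => ?_
  ring

/-- A diagonal operator. -/
def dg (s : β → F) : Module.End F (β → F) where
  toFun f μ := s μ * f μ
  map_add' f g := by
    funext μ
    simp [mul_add]
  map_smul' c f := by
    funext μ
    simp [mul_left_comm]

theorem dg_apply (s f : β → F) (μ : β) : dg s f μ = s μ * f μ := rfl

theorem dg_comm (s s' : β → F) : Commute (dg s) (dg s') :=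
  LinearMap.ext fun _ => funext fun _ => mul_left_comm _ _ _

theorem loc_dg (l : Lens β α) (M : Matrix α α F) (s : β → F) (e : F)
    (h : ∀ μ j, M (l.get μ) j ≠ 0 → s (l.set μ j) = e * s μ) :
    loc l M * dg s = e • (dg s * loc l M) := by
  refine LinearMap.ext fun f => funext fun μ => ?_
  simp only [Module.End.mul_apply, LinearMap.smul_apply, Pi.smul_apply, smul_eq_mul, loc_apply,
    dg_apply, Finset.mul_sum]
  refine Finset.sum_congr rfl fun j _ => ?_
  by_cases hj : M (l.get μ) j = 0
  · simp [hj]
  · rw [h μ j hj]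
    ring

/-- Raising matrix. -/
def U (m : ℕ) : Matrix (Fin m) (Fin m) F := fun a j => if a.val = j.val + 1 then 1 else 0

/-- Lowering matrix. -/
def Dn (m : ℕ) : Matrix (Fin m) (Fin m) F := fun a j => if j.val = a.val + 1 then 1 else 0

theorem U_Dn (m : ℕ) : (U m * Dn m : Matrix (Fin m) (Fin m) F) =
    Matrix.diagonal fun a => if 0 < a.val then 1 else 0 := by
  ext a b
  rw [Matrix.mul_apply]
  by_cases ha : 0 < a.val
  · rw [Finset.sum_eq_single ⟨a.val - 1, by omega⟩]
    · by_cases hab : a = b
      · subst hab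
        have : a.val = a.val - 1 + 1 := by omega
        simp [U, Dn, ha, ← this]
      · have : ¬ b.val = a.val - 1 + 1 := fun h => hab (Fin.ext (by omega))
        simp [U, Dn, this, Matrix.diagonal_apply_ne _ hab]
    · intro j _ hj
      have : ¬ a.val = j.val + 1 := fun h => hj (Fin.ext (by simp; omega))
      simp [U, this]
    · simp
  · have : ∀ j : Fin m, ¬ a.val = j.val + 1 := fun j => by omega
    simp [U, this, Matrix.diagonal_apply, ha]

theorem Dn_U (m : ℕ) : (Dn m * U m : Matrix (Fin m) (Fin m) F) =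
    Matrix.diagonal fun a => if a.val + 1 < m then 1 else 0 := by
  ext a b
  rw [Matrix.mul_apply]
  by_cases ha : a.val + 1 < m
  · rw [Finset.sum_eq_single ⟨a.val + 1, ha⟩]
    · by_cases hab : a = b
      · subst hab
        simp [U, Dn, ha]
      · have : ¬ a.val = b.val := fun h => hab (Fin.ext h)
        simp [U, Dn, this, Matrix.diagonal_apply_ne _ hab]
    · intro j _ hj
      have : ¬ j.val = a.val + 1 := fun h => hj (Fin.ext h)
      simp [Dn, this]
    · simp
  · have : ∀ j : Fin m, ¬ j.val = a.val + 1 := fun j => by omega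
    simp [Dn, this, Matrix.diagonal_apply, ha]

theorem U2_sq : (U 2 * U 2 : Matrix (Fin 2) (Fin 2) F) = 0 := by
  ext a b
  fin_cases a <;> fin_cases b <;> simp [U, Matrix.mul_apply]

theorem Dn2_sq : (Dn 2 * Dn 2 : Matrix (Fin 2) (Fin 2) F) = 0 := by
  ext a b
  fin_cases a <;> fin_cases b <;> simp [Dn, Matrix.mul_apply]

theorem U_off (m : ℕ) (a : Fin m) : (U m : Matrix (Fin m) (Fin m) F) a a = 0 := by simp [U]

theorem Dn_off (m : ℕ) (a : Fin m) : (Dn m : Matrix (Fin m) (Fin m) F) a a = 0 := by simp [Dn]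

end Loc

variable (n : Par.{u})

/-- The cyclic group of odd order `2 n + 1`. -/
abbrev Z : Type := ZMod (2 * n.m + 1)

/-- The vertices of the complete graph. -/
abbrev V : Type := Option (Z n)

/-- The monomial basis. -/
abbrev Bas : Type := (V n → Fin 2) × (Z n → Fin (n.m + 1))

/-- The underlying vector space. -/
abbrev E : Type u := Bas n → n.F

/-- Operators on it. -/
abbrev En : Type u := Module.End n.F (E n)

variable {n}

/-- The coordinate of an odd variable. -/
def lx (v : V n) : Lens (Bas n) (Fin 2) where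
  get μ := μ.1 v
  set μ j := (Function.update μ.1 v j, μ.2)
  get_set μ a := by simp
  set_set μ a b := by simp
  set_get μ := by simp

/-- The coordinate of an even variable. -/
def lw (c : Z n) : Lens (Bas n) (Fin (n.m + 1)) where
  get μ := μ.2 c
  set μ j := (μ.1, Function.update μ.2 c j)
  get_set μ a := by simp
  set_set μ a b := by simp
  set_get μ := by simp

theorem xx_comm {u v : V n} (h : u ≠ v) (M M' : Matrix (Fin 2) (Fin 2) n.F) :
    Commute (loc (lx u) M) (loc (lx v) M') :=
  loc_comm _ _ (fun μ a => by simp [lx, h.symm]) (fun μ a => by simp [lx, h])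
    (fun μ a b => by simp [lx, Function.update_comm h]) _ _

theorem ww_comm {c c' : Z n} (h : c ≠ c') (M M' : Matrix (Fin (n.m + 1)) (Fin (n.m + 1)) n.F) :
    Commute (loc (lw c) M) (loc (lw c') M') :=
  loc_comm _ _ (fun μ a => by simp [lw, h.symm]) (fun μ a => by simp [lw, h])
    (fun μ a b => by simp [lw, Function.update_comm h]) _ _

theorem xw_comm (u : V n) (c : Z n) (M : Matrix (Fin 2) (Fin 2) n.F)
    (M' : Matrix (Fin (n.m + 1)) (Fin (n.m + 1)) n.F) : Commute (loc (lx u) M) (loc (lw c) M') :=
  loc_comm _ _ (fun _ _ => rfl) (fun _ _ => rfl) (fun _ _ _ => rfl) _ _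

/-- A rotation invariant tournament on the vertices. -/
def tb : V n → V n → Bool
  | some a, some b => (b - a).val % 2 = 1
  | some _, none => true
  | none, _ => false

theorem tb_self (v : V n) : tb v v = false := by
  cases v <;> simp [tb]

theorem tb_anti {u v : V n} (h : u ≠ v) : tb v u = !tb u v := by
  cases u with
  | none =>
    cases v with
    | none => exact absurd rfl h
    | some b => rfl
  | some a =>
    cases v with
    | none => rfl
    | some b =>
      have hab : b - a ≠ 0 := fun h' => h (by rw [sub_eq_zero.1 h'])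
      have h1 : (a - b).val = 2 * n.m + 1 - (b - a).val := by
        rw [← neg_sub, ZMod.neg_val, if_neg hab]
      have h2 := (ZMod.val_lt (b - a)).le
      simp only [tb, h1, ← decide_not, decide_eq_decide]
      omega

/-- The sign attached to an odd variable. -/
def sgn (v : V n) (μ : Bas n) : n.F := ∏ u, if tb u v then (-1) ^ (μ.1 u).val else 1

theorem sgn_sq (v : V n) (μ : Bas n) : sgn v μ * sgn v μ = 1 := by
  rw [sgn, ← Finset.prod_mul_distrib]
  refine Finset.prod_eq_one fun u _ => ?_
  split_ifs
  · rw [← mul_pow]; simp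
  · simp

theorem sgn_set (u v : V n) (μ : Bas n) (j : Fin 2) (hj : μ.1 u ≠ j) :
    sgn v ((lx u).set μ j) = (if tb u v then -1 else 1) * sgn v μ := by
  rw [sgn, sgn, ← Finset.mul_prod_erase _ _ (Finset.mem_univ u),
    ← Finset.mul_prod_erase _ _ (Finset.mem_univ u), ← mul_assoc]
  refine congrArg₂ (· * ·) ?_ (Finset.prod_congr rfl fun z hz => ?_)
  · simp only [lx, Function.update_self]
    generalize μ.1 u = a at hj
    split_ifs
    · fin_cases a <;> fin_cases j <;> simp at hj ⊢
    · simp
  · simp only [lx, Function.update_of_ne (Finset.ne_of_mem_erase hz)]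

/-- An odd operator in one odd variable. -/
def jw (v : V n) (M : Matrix (Fin 2) (Fin 2) n.F) : En n := dg (sgn v) * loc (lx v) M

theorem lx_dg (u v : V n) {M : Matrix (Fin 2) (Fin 2) n.F} (hM : ∀ a, M a a = 0) :
    loc (lx u) M * dg (sgn v) = (if tb u v then -1 else 1 : n.F) • (dg (sgn v) * loc (lx u) M) :=
  loc_dg _ _ _ _ fun μ j h => sgn_set u v μ j (by rintro rfl; exact h (hM _))

theorem jw_mul (v : V n) {M : Matrix (Fin 2) (Fin 2) n.F} (hM : ∀ a, M a a = 0)
    (M' : Matrix (Fin 2) (Fin 2) n.F) : jw v M * jw v M' = loc (lx v) (M * M') := by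
  have h : (dg (sgn v) * dg (sgn v) : En n) = 1 := LinearMap.ext fun f => funext fun μ => by
    rw [Module.End.mul_apply, dg_apply, dg_apply, ← mul_assoc, sgn_sq, one_mul]; rfl
  rw [jw, jw, mul_assoc, ← mul_assoc (loc _ M), lx_dg v v hM, tb_self, if_neg (by simp), one_smul,
    mul_assoc, ← mul_assoc, h, one_mul, loc_mul]

theorem jw_anti {u v : V n} (h : u ≠ v) {M M' : Matrix (Fin 2) (Fin 2) n.F} (hM : ∀ a, M a a = 0)
    (hM' : ∀ a, M' a a = 0) : jw u M * jw v M' + jw v M' * jw u M = 0 := by
  rw [jw, jw, mul_assoc, mul_assoc, ← mul_assoc (loc _ M), ← mul_assoc (loc _ M'), lx_dg u v hM,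
    lx_dg v u hM', tb_anti h]
  simp only [smul_mul_assoc, mul_smul_comm, mul_assoc]
  rw [(xx_comm h M M').eq, (dg_comm (sgn u) (sgn v)).left_comm, ← add_smul]
  cases tb u v <;> simp

theorem jw_lw (u : V n) (c : Z n) (M : Matrix (Fin 2) (Fin 2) n.F)
    (M' : Matrix (Fin (n.m + 1)) (Fin (n.m + 1)) n.F) : Commute (jw u M) (loc (lw c) M') := by
  refine Commute.mul_left ?_ (xw_comm _ _ _ _)
  have := loc_dg (lw c) M' (sgn u) 1 fun μ j _ => (one_mul _).symm
  rw [one_smul] at this
  exact this.symm

/-- Multiplication by an odd variable. -/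
def xi (v : V n) : En n := jw v (U 2)

/-- Derivative in an odd variable. -/
def pd (v : V n) : En n := jw v (Dn 2)

/-- Multiplication by an even variable. -/
def W (c : Z n) : En n := loc (lw c) (U (n.m + 1))

/-- Division by an even variable. -/
def wd (c : Z n) : En n := loc (lw c) (Dn (n.m + 1))

theorem xi_sq (v : V n) : xi v * xi v = 0 := by rw [xi, jw_mul _ (U_off 2), U2_sq, loc_zero]
theorem pd_sq (v : V n) : pd v * pd v = 0 := by rw [pd, jw_mul _ (Dn_off 2), Dn2_sq, loc_zero]

theorem xi_xi (u v : V n) : xi u * xi v + xi v * xi u = 0 := by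
  by_cases h : u = v
  · rw [h, xi_sq, add_zero]
  · exact jw_anti h (U_off 2) (U_off 2)

theorem pd_pd (u v : V n) : pd u * pd v + pd v * pd u = 0 := by
  by_cases h : u = v
  · rw [h, pd_sq, add_zero]
  · exact jw_anti h (Dn_off 2) (Dn_off 2)

theorem W_W (c c' : Z n) : Commute (W c) (W c') := by
  by_cases h : c = c'
  · subst h; exact Commute.refl _
  · exact ww_comm h _ _

theorem xi_W (u : V n) (c : Z n) : Commute (xi u) (W c) := jw_lw _ _ _ _
theorem pd_W (u : V n) (c : Z n) : Commute (pd u) (W c) := jw_lw _ _ _ _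
theorem xi_wd (u : V n) (c : Z n) : Commute (xi u) (wd c) := jw_lw _ _ _ _
theorem pd_wd (u : V n) (c : Z n) : Commute (pd u) (wd c) := jw_lw _ _ _ _

theorem xi_pd_apply (v : V n) (f : E n) (μ : Bas n) :
    xi v (pd v f) μ = if 0 < (μ.1 v).val then f μ else 0 := by
  rw [← Module.End.mul_apply, xi, pd, jw_mul _ (U_off 2), U_Dn, loc_diag]
  simp [lx]

theorem pd_xi_apply (v : V n) (f : E n) (μ : Bas n) :
    pd v (xi v f) μ = if (μ.1 v).val + 1 < 2 then f μ else 0 := by
  rw [← Module.End.mul_apply, xi, pd, jw_mul _ (Dn_off 2), Dn_U, loc_diag]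
  simp [lx]

theorem W_wd_apply (c : Z n) (f : E n) (μ : Bas n) :
    W c (wd c f) μ = if 0 < (μ.2 c).val then f μ else 0 := by
  rw [← Module.End.mul_apply, W, wd, loc_mul, U_Dn, loc_diag]
  simp [lw]

theorem wd_W_apply (c : Z n) (f : E n) (μ : Bas n) :
    wd c (W c f) μ = if (μ.2 c).val + 1 < n.m + 1 then f μ else 0 := by
  rw [← Module.End.mul_apply, W, wd, loc_mul, Dn_U, loc_diag]
  simp [lw]

theorem pd_xi (u v : V n) : pd u * xi v + xi v * pd u = if u = v then 1 else 0 := by
  split_ifs with h
  · subst h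
    refine LinearMap.ext fun f => funext fun μ => ?_
    simp only [LinearMap.add_apply, Module.End.mul_apply, Pi.add_apply, xi_pd_apply, pd_xi_apply,
      Module.End.one_apply]
    have := (μ.1 u).isLt
    split_ifs <;> first | omega | simp
  · exact jw_anti h (Dn_off 2) (U_off 2)

/-- The colour of an edge in the one-factorisation. -/
def col : V n → V n → Z n
  | some a, some b => a + b
  | some a, none => a + a
  | none, some b => b + b
  | none, none => 0

theorem col_symm (u v : V n) : col u v = col v u := by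
  cases u <;> cases v <;> simp [col, add_comm]

/-- The contraction part of a Clifford generator. -/
def S (γ : V n → V n → n.F) (v : V n) : En n := ∑ u, γ v u • (W (col v u) * pd u)

/-- A Clifford generator acting on the exterior algebra. -/
def T (γ : V n → V n → n.F) (v : V n) : En n := xi v + S γ v

theorem S_xi (γ : V n → V n → n.F) (v u : V n) :
    S γ v * xi u + xi u * S γ v = γ v u • W (col v u) := by
  rw [S, Finset.sum_mul, Finset.mul_sum, ← Finset.sum_add_distrib, Finset.sum_eq_single u]
  · rw [smul_mul_assoc, mul_smul_comm, ← smul_add, ← mul_assoc, (xi_W _ _).eq, mul_assoc,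
      mul_assoc, ← mul_add, pd_xi, if_pos rfl, mul_one]
  · intro z _ hz
    rw [smul_mul_assoc, mul_smul_comm, ← smul_add, ← mul_assoc, (xi_W _ _).eq, mul_assoc,
      mul_assoc, ← mul_add, pd_xi, if_neg hz, mul_zero, smul_zero]
  · simp

theorem Wpd_anti (c c' : Z n) (u u' : V n) :
    W c * pd u * (W c' * pd u') + W c' * pd u' * (W c * pd u) = 0 := by
  rw [mul_assoc, mul_assoc, (pd_W u c').left_comm, (pd_W u' c).left_comm, (W_W c' c).left_comm,
    ← mul_add, ← mul_add, pd_pd, mul_zero, mul_zero]

theorem anti_sum {ι : Type} (s : Finset ι) (A : En n) (B : ι → En n) (g : ι → n.F)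
    (h : ∀ i, A * B i + B i * A = 0) : A * ∑ i ∈ s, g i • B i + (∑ i ∈ s, g i • B i) * A = 0 := by
  rw [Finset.mul_sum, Finset.sum_mul, ← Finset.sum_add_distrib]
  refine Finset.sum_eq_zero fun i _ => ?_
  rw [mul_smul_comm, smul_mul_assoc, ← smul_add, h, smul_zero]

theorem S_S (γ γ' : V n → V n → n.F) (v u : V n) : S γ v * S γ' u + S γ' u * S γ v = 0 :=
  anti_sum _ _ _ _ fun _ => (add_comm _ _).trans (anti_sum _ _ _ _ fun _ => Wpd_anti _ _ _ _)

theorem pd_Wpd (u v : V n) (c : Z n) : pd u * (W c * pd v) + W c * pd v * pd u = 0 := by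
  rw [(pd_W u c).left_comm, mul_assoc, ← mul_add, pd_pd, mul_zero]

theorem pd_S (γ : V n → V n → n.F) (u v : V n) : pd u * S γ v + S γ v * pd u = 0 :=
  anti_sum _ _ _ _ fun _ => pd_Wpd _ _ _

theorem S_sq (γ : V n → V n → n.F) (v : V n) : S γ v * S γ v = 0 := by
  have key : ∀ s : Finset (V n), (∑ u ∈ s, γ v u • (W (col v u) * pd u)) *
      (∑ u ∈ s, γ v u • (W (col v u) * pd u)) = 0 := by
    intro s
    induction s using Finset.induction_on with
    | empty => simp
    | insert a s ha ih =>
      rw [Finset.sum_insert ha]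
      have h1 : (γ v a • (W (col v a) * pd a)) * (γ v a • (W (col v a) * pd a)) = 0 := by
        rw [smul_mul_assoc, mul_smul_comm, mul_assoc, ← mul_assoc (pd a), (pd_W _ _).eq,
          mul_assoc, pd_sq]
        simp
      rw [add_mul, mul_add, mul_add, h1, ih, zero_add, add_zero, smul_mul_assoc, mul_smul_comm,
        ← smul_add, anti_sum _ _ _ _ fun _ => Wpd_anti _ _ _ _, smul_zero]
  exact key _

theorem T_anti (γ γ' : V n → V n → n.F) (v u : V n) :
    T γ v * T γ' u + T γ' u * T γ v = (γ v u + γ' u v) • W (col v u) := by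
  have h1 := xi_xi v u
  have h2 := S_S γ γ' v u
  have h3 := S_xi γ v u
  have h4 := S_xi γ' u v
  rw [col_symm u v] at h4
  rw [add_smul, ← h3, ← h4]
  have : T γ v * T γ' u + T γ' u * T γ v = (xi v * xi u + xi u * xi v) +
      (S γ v * S γ' u + S γ' u * S γ v) + (S γ v * xi u + xi u * S γ v +
      (S γ' u * xi v + xi v * S γ' u)) := by
    simp only [T, mul_add, add_mul]
    abel
  rw [this, h1, h2, zero_add, zero_add]

theorem T_sq (γ : V n → V n → n.F) (v : V n) (h : γ v v = 0) : T γ v * T γ v = 0 := by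
  have h3 := S_xi γ v v
  rw [h, zero_smul] at h3
  have : T γ v * T γ v = xi v * xi v + S γ v * S γ v + (S γ v * xi v + xi v * S γ v) := by
    simp only [T, mul_add, add_mul]
    abel
  rw [this, h3, xi_sq, S_sq]
  simp

theorem pd_T (γ : V n → V n → n.F) (u v : V n) :
    pd u * T γ v + T γ v * pd u = if u = v then 1 else 0 := by
  have : pd u * T γ v + T γ v * pd u = (pd u * xi v + xi v * pd u) +
      (pd u * S γ v + S γ v * pd u) := by
    simp only [T, mul_add, add_mul]
    abel
  rw [this, pd_xi, pd_S γ u v, add_zero]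

end Pool.Agent.Lib.MP_1ef125_al.Gen
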