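import Mathlib
import Pool.Agent.Lib.MP_1ef125_al.Gen.Compare

/-! Injective envelopes of finitely generated modules over finite-dimensional algebras, and the
comparison of a minimal injective coresolution with an arbitrary one. -/

universe u

noncomputable section

namespace Pool.Agent.Lib.MP_1ef125_al.Gen

section Hull

variable {B : Type u} [Ring B]

theorem exists_hull {E : Type u} [AddCommGroup E] [Module B E] [IsNoetherian B E]
    (hE : Module.Injective B E) (N : Submodule B E) :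
    ∃ H : Submodule B E, N ≤ H ∧ (∀ L ≤ H, L ⊓ N = ⊥ → L = ⊥) ∧ Module.Injective B H := by
  obtain ⟨H, ⟨hNH, hH⟩, hmax⟩ := (set_has_maximal_iff_noetherian.mpr ‹IsNoetherian B E›)
    {H | N ≤ H ∧ ∀ L ≤ H, L ⊓ N = ⊥ → L = ⊥}
    ⟨N, le_rfl, fun L hL h => by rwa [inf_eq_left.mpr hL] at h⟩
  obtain ⟨C, hC, hCmax⟩ := (set_has_maximal_iff_noetherian.mpr ‹IsNoetherian B E›)
    {C | C ⊓ H = ⊥} ⟨⊥, bot_inf_eq H⟩
  have hj : Function.Injective (C.mkQ ∘ₗ H.subtype) := by
    rw [← LinearMap.ker_eq_bot, Submodule.eq_bot_iff]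
    intro x hx
    have h1 : x.1 ∈ C ⊓ H := ⟨(Submodule.Quotient.mk_eq_zero C).mp hx, x.2⟩
    rw [show C ⊓ H = ⊥ from hC] at h1
    exact Subtype.ext h1
  obtain ⟨g, hg⟩ := hE.out _ hj H.subtype
  have hp : ∀ x ∈ H, (g ∘ₗ C.mkQ) x = x := fun x hx => hg ⟨x, hx⟩
  have hle : H ≤ LinearMap.range (g ∘ₗ C.mkQ) := fun x hx => ⟨x, hp x hx⟩
  have hrange : LinearMap.range (g ∘ₗ C.mkQ) = H := by
    refine (hle.eq_or_lt.resolve_right (hmax _ ⟨hNH.trans hle, fun L hL hLN => ?_⟩)).symm
    have h1 : L ⊓ H = ⊥ := hH _ inf_le_right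
      (eq_bot_iff.mpr (hLN ▸ inf_le_inf_right N inf_le_left))
    have h2 : L.comap (g ∘ₗ C.mkQ) ⊓ H = ⊥ := by
      rw [eq_bot_iff, ← h1]
      exact fun x hx => ⟨hp x hx.2 ▸ hx.1, hx.2⟩
    have h3 : C ≤ L.comap (g ∘ₗ C.mkQ) := fun x hx => by
      rw [Submodule.mem_comap, LinearMap.comp_apply, Submodule.mkQ_apply,
        (Submodule.Quotient.mk_eq_zero C).mpr hx, map_zero]
      exact L.zero_mem
    have h4 := h3.eq_or_lt.resolve_right (hCmax _ h2)
    rw [Submodule.eq_bot_iff]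
    intro l hl
    obtain ⟨e, rfl⟩ := hL hl
    have h5 : e ∈ C := h4 ▸ hl
    rw [LinearMap.comp_apply, Submodule.mkQ_apply, (Submodule.Quotient.mk_eq_zero C).mpr h5,
      map_zero]
  refine ⟨H, hNH, hH, ⟨fun X Y _ _ _ _ f hf φ => ?_⟩⟩
  obtain ⟨h, hh⟩ := hE.out f hf (H.subtype ∘ₗ φ)
  refine ⟨((g ∘ₗ C.mkQ).codRestrict H fun x => hrange ▸ LinearMap.mem_range_self _ x) ∘ₗ h,
    fun x => Subtype.ext ?_⟩
  change (g ∘ₗ C.mkQ) (h (f x)) = (φ x).1
  rw [hh]
  exact hp _ (φ x).2

/-- The coinduced module. -/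
def Coind (k : Type u) [Field k] (B : Type u) [Ring B] [Algebra k B] (M : Type u)
    [AddCommGroup M] [Module k M] : Type u := B →ₗ[k] M

section Coind

variable {k : Type u} [Field k] [Algebra k B] {M : Type u} [AddCommGroup M] [Module k M]

instance : AddCommGroup (Coind k B M) := inferInstanceAs (AddCommGroup (B →ₗ[k] M))

instance : Module k (Coind k B M) := inferInstanceAs (Module k (B →ₗ[k] M))

/-- The underlying linear map. -/
def Coind.val (φ : Coind k B M) : B →ₗ[k] M := φ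

theorem Coind.ext' {φ ψ : Coind k B M} (h : ∀ x, φ.val x = ψ.val x) : φ = ψ := LinearMap.ext h

instance : Module B (Coind k B M) where
  smul b φ := φ.val ∘ₗ LinearMap.mulRight k b
  one_smul φ := Coind.ext' fun x => congrArg φ.val (mul_one x)
  mul_smul a b φ := Coind.ext' fun x => congrArg φ.val (mul_assoc x a b).symm
  smul_zero _ := rfl
  smul_add _ _ _ := rfl
  add_smul a b φ := Coind.ext' fun x => (congrArg φ.val (mul_add x a b)).trans (map_add _ _ _)
  zero_smul φ := Coind.ext' fun x => (congrArg φ.val (mul_zero x)).trans (map_zero _)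

theorem Coind.smul_val (b : B) (φ : Coind k B M) (x : B) : (b • φ).val x = φ.val (x * b) := rfl

instance : IsScalarTower k B (Coind k B M) :=
  ⟨fun c b φ => Coind.ext' fun x => (congrArg φ.val (mul_smul_comm c x b)).trans (map_smul _ _ _)⟩

theorem Coind.injective : Module.Injective B (Coind k B M) := by
  apply Module.Baer.injective
  intro I g
  let l0 : (I.restrictScalars k) →ₗ[k] M :=
    { toFun := fun x => (g ⟨x.1, x.2⟩).val 1
      map_add' := fun x y =>
        congrArg (fun φ : Coind k B M => φ.val 1) (g.map_add ⟨x.1, x.2⟩ ⟨y.1, y.2⟩)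
      map_smul' := fun c x => by
        have h1 : (⟨(c • x).1, (c • x).2⟩ : I) = (algebraMap k B c) • (⟨x.1, x.2⟩ : I) :=
          Subtype.ext (Algebra.smul_def c x.1)
        rw [h1, map_smul, algebraMap_smul]
        rfl }
  obtain ⟨l1, hl1⟩ := LinearMap.exists_extend l0
  refine ⟨LinearMap.toSpanSingleton B (Coind k B M) l1, fun x hx => Coind.ext' fun z => ?_⟩
  have h1 : l1 (z * x) = (g (z • ⟨x, hx⟩)).val 1 :=
    LinearMap.congr_fun hl1 ⟨z * x, I.mul_mem_left z hx⟩
  rw [map_smul, Coind.smul_val, one_mul] at h1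
  exact h1

end Coind

/-- Finitely generated modules have finitely generated injective envelopes. -/
theorem exists_env (k : Type u) [Field k] [Algebra k B] [FiniteDimensional k B]
    (M : ModuleCat.{u} B) (hM : Module.Finite B M) :
    ∃ (I : ModuleCat.{u} B) (ι : M →ₗ[B] I), Module.Finite B I ∧ Module.Injective B I ∧
      Function.Injective ι ∧ ∀ L : Submodule B I, L ⊓ LinearMap.range ι = ⊥ → L = ⊥ := by
  let _ : Module k M := Module.compHom M (algebraMap k B)
  have : IsScalarTower k B M := ⟨fun c b m => by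
    rw [Algebra.smul_def, mul_smul]; rfl⟩
  have : FiniteDimensional k M := Module.Finite.trans B M
  have : FiniteDimensional k (Coind k B M) := inferInstanceAs (FiniteDimensional k (B →ₗ[k] M))
  have : IsNoetherian B (Coind k B M) := isNoetherian_of_tower k inferInstance
  let ι : M →ₗ[B] Coind k B M :=
    { toFun := fun m => (LinearMap.toSpanSingleton B M m).restrictScalars k
      map_add' := fun m m' => Coind.ext' fun x => smul_add x m m'
      map_smul' := fun b m => Coind.ext' fun x => (mul_smul x b m).symm }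
  have hι : Function.Injective ι := fun m m' h => by
    have h1 : (1 : B) • m = (1 : B) • m' := congrArg (fun φ : Coind k B M => φ.val 1) h
    rwa [one_smul, one_smul] at h1
  obtain ⟨H, hN, hH, hinj⟩ := exists_hull Coind.injective (LinearMap.range ι)
  refine ⟨ModuleCat.of B H, ι.codRestrict H fun m => hN ⟨m, rfl⟩,
    (inferInstance : Module.Finite B H), hinj, fun m m' h => hι (congrArg Subtype.val h),
    fun L hL => ?_⟩
  have h1 := hH (L.map H.subtype) (Submodule.map_subtype_le _ _) (by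
    rw [Submodule.eq_bot_iff]
    rintro _ ⟨⟨y, hy, rfl⟩, m, hm⟩
    have h2 : y ∈ L ⊓ LinearMap.range (ι.codRestrict H fun m => hN ⟨m, rfl⟩) :=
      ⟨hy, m, Subtype.ext hm⟩
    rw [hL] at h2
    exact congrArg Subtype.val h2)
  rw [Submodule.eq_bot_iff] at h1 ⊢
  exact fun y hy => Subtype.ext (h1 _ ⟨y, hy, rfl⟩)

/-- Existence of a minimal injective coresolution with finitely generated terms. -/
theorem exists_min (k : Type u) [Field k] [Algebra k B] [FiniteDimensional k B] :
    ∃ (I : ℕ → ModuleCat.{u} B) (ε : B →ₗ[B] I 0) (d : ∀ i, I i →ₗ[B] I (i + 1)),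
      (∀ i, Module.Finite B (I i)) ∧ (∀ i, Module.Injective B (I i)) ∧ Function.Injective ε ∧
      Function.Exact ε (d 0) ∧ (∀ i, Function.Exact (d i) (d (i + 1))) ∧
      ∀ i (L : Submodule B (I i)), L ⊓ LinearMap.ker (d i) = ⊥ → L = ⊥ := by
  choose I ι h1 h2 h3 h4 using exists_env (B := B) k
  let X : ℕ → {M : ModuleCat.{u} B // Module.Finite B M} := fun i =>
    Nat.rec ⟨ModuleCat.of B B, (inferInstance : Module.Finite B B)⟩
      (fun _ M => ⟨ModuleCat.of B (I M.1 M.2 ⧸ LinearMap.range (ι M.1 M.2)),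
        haveI := h1 M.1 M.2
        (inferInstance : Module.Finite B (I M.1 M.2 ⧸ LinearMap.range (ι M.1 M.2)))⟩) i
  let d : ∀ i, I (X i).1 (X i).2 →ₗ[B] I (X (i + 1)).1 (X (i + 1)).2 := fun i =>
    ι (X (i + 1)).1 (X (i + 1)).2 ∘ₗ (LinearMap.range (ι (X i).1 (X i).2)).mkQ
  have hk : ∀ i, LinearMap.ker (d i) = LinearMap.range (ι (X i).1 (X i).2) := fun i =>
    (LinearMap.ker_comp_of_ker_eq_bot _ (LinearMap.ker_eq_bot.mpr (h3 _ _))).trans
      (Submodule.ker_mkQ _)
  refine ⟨fun i => I (X i).1 (X i).2, ι (X 0).1 (X 0).2, d, fun i => h1 _ _, fun i => h2 _ _,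
    h3 _ _, LinearMap.exact_iff.mpr (hk 0),
    fun i => LinearMap.exact_iff.mpr ((hk (i + 1)).trans ?_), fun i L hL => h4 _ _ L (hk i ▸ hL)⟩
  exact (LinearMap.range_comp_of_range_eq_top _ (Submodule.range_mkQ _)).symm

theorem retract_step {X Y I J : Type u} [AddCommGroup X] [Module B X] [AddCommGroup Y]
    [Module B Y] [AddCommGroup I] [Module B I] [AddCommGroup J] [Module B J]
    (f : X →ₗ[B] Y) (g : Y →ₗ[B] X) (hgf : ∀ x, g (f x) = x) (ιX : X →ₗ[B] I) (ιY : Y →ₗ[B] J)
    (hX : Function.Injective ιX) (hY : Function.Injective ιY) (hI : Module.Injective B I)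
    (hJ : Module.Injective B J) (U : Submodule B I) (W : Submodule B J)
    (hU : U = LinearMap.range ιX) (hW : W = LinearMap.range ιY)
    (hess : ∀ L : Submodule B I, L ⊓ U = ⊥ → L = ⊥) :
    ∃ (f' : I →ₗ[B] J) (g' : J →ₗ[B] I), (∀ x, g' (f' x) = x) ∧ U ≤ W.comap f' ∧
      W ≤ U.comap g' := by
  subst hU hW
  obtain ⟨f', hf'⟩ := hJ.out ιX hX (ιY ∘ₗ f)
  obtain ⟨g', hg'⟩ := hI.out ιY hY (ιX ∘ₗ g)
  have hθ : ∀ x, (g' ∘ₗ f') (ιX x) = ιX x := fun x => by
    rw [LinearMap.comp_apply, hf', LinearMap.comp_apply, hg', LinearMap.comp_apply, hgf]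
  have hinj : Function.Injective (g' ∘ₗ f') := by
    rw [← LinearMap.ker_eq_bot]
    refine hess _ ((Submodule.eq_bot_iff _).mpr ?_)
    rintro _ ⟨h1, x, rfl⟩
    exact (hθ x).symm.trans h1
  obtain ⟨ρ, hρ⟩ := hI.out _ hinj LinearMap.id
  refine ⟨f', ρ ∘ₗ g', hρ, ?_, ?_⟩
  · rintro _ ⟨x, rfl⟩
    exact ⟨f x, (hf' x).symm⟩
  · rintro _ ⟨y, rfl⟩
    refine ⟨g y, ?_⟩
    rw [LinearMap.comp_apply, hg', LinearMap.comp_apply, ← hθ, hρ, hθ]
    rfl

/-- The terms of a minimal injective coresolution are direct summands of those of any other. -/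
theorem PP.projective {m : ℕ} (h : PP B m) (I : ℕ → ModuleCat.{u} B) (ε : B →ₗ[B] I 0)
    (d : ∀ i, I i →ₗ[B] I (i + 1)) (hI : ∀ i, Module.Injective B (I i))
    (hε : Function.Injective ε) (ex0 : Function.Exact ε (d 0))
    (ex : ∀ i, Function.Exact (d i) (d (i + 1)))
    (hmin : ∀ i (L : Submodule B (I i)), L ⊓ LinearMap.ker (d i) = ⊥ → L = ⊥) (j : ℕ)
    (hj : j < m) : Module.Projective B (I j) := by
  obtain ⟨J, εJ, dJ, h1, h2, h3, h4⟩ := h
  have exI : ∀ i, Function.Exact (preδ (ModuleCat.of B B) I ε d i)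
      (preδ (ModuleCat.of B B) I ε d (i + 1)) := by
    intro i
    cases i with
    | zero => exact ex0
    | succ i => exact ex i
  have exJ : ∀ i, i + 1 < m → Function.Exact (preδ (ModuleCat.of B B) J εJ dJ i)
      (preδ (ModuleCat.of B B) J εJ dJ (i + 1)) := by
    intro i hi
    cases i with
    | zero => exact h2 hi
    | succ i => exact h3 i hi
  have hess : ∀ i (L : Submodule B (I i)),
      L ⊓ LinearMap.range (preδ (ModuleCat.of B B) I ε d i) = ⊥ → L = ⊥ :=
    fun i L hL => hmin i L ((congrArg (L ⊓ ·) (LinearMap.exact_iff.mp (exI i))).trans hL)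
  have key : ∀ i, i < m → ∃ (f : I i →ₗ[B] J i) (g : J i →ₗ[B] I i), (∀ x, g (f x) = x) ∧
      LinearMap.range (preδ (ModuleCat.of B B) I ε d i) ≤
        (LinearMap.range (preδ (ModuleCat.of B B) J εJ dJ i)).comap f ∧
      LinearMap.range (preδ (ModuleCat.of B B) J εJ dJ i) ≤
        (LinearMap.range (preδ (ModuleCat.of B B) I ε d i)).comap g := by
    intro i
    induction i with
    | zero =>
      intro hi
      exact retract_step LinearMap.id LinearMap.id (fun _ => rfl) ε εJ hε h1 (hI 0) (h4 0 hi).2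
        _ _ rfl rfl (hess 0)
    | succ i ih =>
      intro hi
      obtain ⟨f, g, hgf, hf, hg⟩ := ih (by omega)
      obtain ⟨cI, hcI, hcI'⟩ := liftQ_inj _ _ (exI i)
      obtain ⟨cJ, hcJ, hcJ'⟩ := liftQ_inj _ _ (exJ i hi)
      refine retract_step (Submodule.mapQ _ _ f hf) (Submodule.mapQ _ _ g hg) (fun x => ?_) cI cJ
        hcI hcJ (hI _) (h4 _ hi).2 _ _ hcI' hcJ' (hess _)
      obtain ⟨x, rfl⟩ := Submodule.mkQ_surjective _ x
      exact congrArg (Submodule.mkQ _) (hgf x)
  obtain ⟨f, g, hgf, -⟩ := key j hj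
  have := (h4 j hj).1
  exact Module.Projective.of_split f g (LinearMap.ext hgf)

end Hull

end Pool.Agent.Lib.MP_1ef125_al.Gen
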