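import Mathlib
import Pool.Agent.Lib.MP_1ef125_al.Gen.Grading
import Pool.Agent.Lib.MP_1ef125_al.Gen.Abstract

universe u

noncomputable section

namespace Pool.Agent.Lib.MP_1ef125_al.Gen

variable {n : Par.{u}}

/-- The indicator of the tournament. -/
def β (u v : V n) : n.F := if tb u v then 1 else 0

/-- The opposite tournament, with a sign. -/
def β' (u v : V n) : n.F := -β v u

theorem β_self (v : V n) : β v v = 0 := by simp [β, tb_self]

theorem β'_self (v : V n) : β' v v = 0 := by simp [β', β_self]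

theorem β_sum (u v : V n) (h : u ≠ v) : β u v + β v u = 1 := by
  rw [β, β, tb_anti h]
  cases tb u v <;> simp

theorem β_tour : Tour (β : V n → V n → n.F) := ⟨1, fun u v h => by rw [β_sum u v h, one_mul]⟩

theorem β'_tour : Tour (β' : V n → V n → n.F) :=
  ⟨-1, fun u v h => by rw [β', β', ← neg_add, β_sum v u h.symm]; simp⟩

/-- Left multiplication by a Clifford generator. -/
abbrev L (v : V n) : En n := T β v

/-- Right multiplication by a Clifford generator, up to the parity sign. -/
abbrev R (v : V n) : En n := T β' v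

theorem L_R (v u : V n) : L v * R u + R u * L v = 0 := by
  rw [T_anti, β', add_neg_cancel, zero_smul]

theorem anti_apply {A B : En n} (h : A * B + B * A = 0) (q : E n) : A (B q) = -B (A q) :=
  eq_neg_of_add_eq_zero_left (LinearMap.congr_fun h q)

/-- Rotation of the vertices. -/
def sh (a : Z n) : V n ≃ V n := Equiv.optionCongr (Equiv.addRight a)

theorem sh_some (a b : Z n) : sh a (some b) = some (b + a) := rfl

theorem sh_none (a : Z n) : sh a none = none := rfl

theorem sh_sh (a b : Z n) (v : V n) : sh a (sh b v) = sh (b + a) v := by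
  cases v <;> simp [sh_some, sh_none, add_assoc]

theorem tb_sh (a : Z n) (u v : V n) : tb (sh a u) (sh a v) = tb u v := by
  cases u <;> cases v <;> simp [sh_some, sh_none, tb]

theorem β_sh (a : Z n) (u v : V n) : β (sh a u) (sh a v) = β u v := by rw [β, β, tb_sh]

/-- Rotation of the monomials. -/
def τ : Bas n ≃ Bas n :=
  Equiv.prodCongr (Equiv.arrowCongr (sh 1).symm (Equiv.refl _))
    (Equiv.arrowCongr (Equiv.addRight (2 : Z n)).symm (Equiv.refl _))

theorem τ_apply (μ : Bas n) : τ μ = (μ.1 ∘ sh 1, μ.2 ∘ Equiv.addRight (2 : Z n)) := rfl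

theorem deg_τ (μ : Bas n) : deg (τ μ) = deg μ := by
  rw [τ_apply]
  unfold deg
  rw [← Equiv.sum_comp (sh 1) (fun v => ((μ.1 v).val : ℤ)),
    ← Equiv.sum_comp (Equiv.addRight (2 : Z n)) (fun c => ((μ.2 c).val : ℤ))]
  rfl

/-- The rotation automorphism. -/
def rot0 : En n := LinearMap.funLeft n.F n.F τ

theorem rot0_apply (f : E n) (μ : Bas n) : rot0 f μ = f (τ μ) := rfl

/-- The parity involution. -/
def par : En n := dg fun μ => (-1) ^ deg μ

theorem par_hom {s : ℤ} {f : E n} (hf : f ∈ Es s) : par f = (-1 : n.F) ^ s • f := by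
  funext μ
  rw [par, dg_apply, Pi.smul_apply, smul_eq_mul]
  by_cases h : deg μ = s
  · rw [h]
  · rw [hf μ h, mul_zero, mul_zero]

theorem par_odd {A : En n} (h : Hom 1 A) : par * A = -(A * par) := by
  refine ext_hom fun s f hf => ?_
  rw [LinearMap.neg_apply, Module.End.mul_apply, Module.End.mul_apply, par_hom hf,
    par_hom (h s f hf), map_smul, zpow_add_one₀ (by simp), ← neg_smul, mul_neg_one]

/-- The rotation automorphism composed with the parity involution. -/
def rot : En n := par * rot0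

theorem rot_apply (f : E n) (μ : Bas n) : rot f μ = (-1) ^ deg μ * f (τ μ) := rfl

theorem hom_rot : Hom 0 (rot : En n) := by
  intro s f hf μ hμ
  rw [rot_apply, hf _ (by rw [deg_τ]; omega), mul_zero]

theorem rot_inv (q : E n) : rot (fun μ => (-1) ^ deg μ * q (τ.symm μ)) = q := by
  funext μ
  rw [rot_apply, Equiv.symm_apply_apply, deg_τ, ← mul_assoc, ← mul_zpow]
  simp

theorem rot_surj {s : ℤ} {q : E n} (hq : q ∈ Es s) : ∃ q' ∈ Es s, rot q' = q := by
  refine ⟨_, fun μ hμ => ?_, rot_inv q⟩
  rw [hq _ (by rw [← deg_τ, Equiv.apply_symm_apply]; exact hμ), mul_zero]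

theorem rot_one : rot (one : E n) = one := by
  rw [Es_zero (hom_rot 0 _ one_mem), rot_apply]
  have : τ (μ0 : Bas n) = μ0 := rfl
  rw [this, deg_μ0]
  simp [one]

theorem rot_lx (v : V n) (M : Matrix (Fin 2) (Fin 2) n.F) :
    rot0 * loc (lx v) M = loc (lx (sh 1 v)) M * rot0 := by
  refine LinearMap.ext fun f => funext fun μ => ?_
  simp only [Module.End.mul_apply, rot0_apply, loc_apply, lx, τ_apply,
    Function.update_comp_eq_of_injective _ (sh (1 : Z n)).injective]
  rfl

theorem rot_jw (v : V n) (M : Matrix (Fin 2) (Fin 2) n.F) :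
    rot0 * jw v M = jw (sh 1 v) M * rot0 := by
  have h : (rot0 * dg (sgn v) : En n) = dg (sgn (sh 1 v)) * rot0 := by
    refine LinearMap.ext fun f => funext fun μ => ?_
    simp only [Module.End.mul_apply, rot0_apply, dg_apply]
    refine congrArg (· * f (τ μ)) ?_
    rw [sgn, sgn, ← Equiv.prod_comp (sh (1 : Z n))
      (fun u => if tb u (sh 1 v) then (-1 : n.F) ^ (μ.1 u).val else 1)]
    simp only [tb_sh]
    rfl
  rw [jw, jw, ← mul_assoc, h, mul_assoc, rot_lx, mul_assoc]

theorem rot_lw (c : Z n) (M : Matrix (Fin (n.m + 1)) (Fin (n.m + 1)) n.F) :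
    rot0 * loc (lw c) M = loc (lw (c + 2)) M * rot0 := by
  refine LinearMap.ext fun f => funext fun μ => ?_
  have h := fun j => Function.update_comp_eq_of_injective μ.2
    (Equiv.addRight (2 : Z n)).injective c j
  simp only [Equiv.coe_addRight] at h
  simp only [Module.End.mul_apply, rot0_apply, loc_apply, lw, τ_apply, Equiv.coe_addRight, h]
  rfl

theorem rot_T (γ : V n → V n → n.F) (hγ : ∀ u v, γ (sh 1 u) (sh 1 v) = γ u v)
    (h0 : γ none none = 0) (v : V n) : rot0 * T γ v = T γ (sh 1 v) * rot0 := by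
  rw [T, T, mul_add, add_mul, xi, rot_jw, S, S, Finset.mul_sum, Finset.sum_mul,
    ← Equiv.sum_comp (sh (1 : Z n)) (fun u => γ (sh 1 v) u • (W (col (sh 1 v) u) * pd u) * rot0)]
  congr 1
  refine Finset.sum_congr rfl fun u _ => ?_
  rw [hγ, mul_smul_comm, smul_mul_assoc, ← mul_assoc, W, rot_lw, mul_assoc, pd, rot_jw,
    ← mul_assoc]
  cases v with
  | none =>
    cases u with
    | none => simp [h0]
    | some b =>
      have : col (none : V n) (some b) + 2 = col (sh 1 none) (sh 1 (some b)) := by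
        simp only [sh_some, sh_none, col]; ring
      rw [this]; rfl
  | some a =>
    cases u with
    | none =>
      have : col (some a : V n) none + 2 = col (sh 1 (some a)) (sh 1 none) := by
        simp only [sh_some, sh_none, col]; ring
      rw [this]; rfl
    | some b =>
      have : col (some a : V n) (some b) + 2 = col (sh 1 (some a)) (sh 1 (some b)) := by
        simp only [sh_some, col]; ring
      rw [this]; rfl

theorem rot_L (v : V n) : rot * L v = -(L (sh 1 v) * rot) := by
  rw [rot, mul_assoc, rot_T _ (β_sh 1) (β_self _) v, ← mul_assoc, par_odd (hom_T _ _)]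
  exact LinearMap.ext fun _ => rfl

/-- Left multiplication by a generator in the twisted algebra. -/
def tL (v : V n) : En n where
  toFun f μ := L (sh ((deg μ - 1 : ℤ) : Z n) v) f μ
  map_add' f g := by
    funext μ
    simp
  map_smul' c f := by
    funext μ
    simp

/-- Right multiplication by a generator in the twisted algebra. -/
def tR (v : V n) : En n := R v * rot

theorem tL_hom (v : V n) {s : ℤ} {f : E n} (hf : f ∈ Es s) :
    tL v f = L (sh (s : Z n) v) f := by
  funext μ
  change L (sh ((deg μ - 1 : ℤ) : Z n) v) f μ = _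
  by_cases h : deg μ = s + 1
  · rw [h, add_sub_cancel_right]
  · rw [hom_T _ _ _ _ hf μ h, hom_T _ _ _ _ hf μ h]

theorem hom_tL (v : V n) : Hom 1 (tL v) := fun s f hf => by
  rw [tL_hom v hf]
  exact hom_T _ _ _ _ hf

theorem hom_tR (v : V n) : Hom 1 (tR v) := by
  have := (hom_T β' v).mul hom_rot
  rwa [zero_add] at this

theorem tL_tR (v u : V n) : tR u * tL v = tL v * tR u := by
  refine ext_hom fun s f hf => ?_
  rw [Module.End.mul_apply, Module.End.mul_apply, tL_hom v hf, tL_hom v (hom_tR u s f hf), tR,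
    Module.End.mul_apply, Module.End.mul_apply, ← Module.End.mul_apply rot, rot_L,
    LinearMap.neg_apply, map_neg, Module.End.mul_apply, ← anti_apply (L_R _ _), sh_sh]
  push_cast
  rfl

variable (n) in
/-- The twisted algebra, as the commutant of the right multiplications. -/
def Alg : Subalgebra n.F (En n) := Subalgebra.centralizer n.F (Set.range tR)

theorem Alg_comm (a : Alg n) (v : V n) (f : E n) : a.1 (tR v f) = tR v (a.1 f) := by
  have := (Subalgebra.mem_centralizer_iff n.F).1 a.2 (tR v) ⟨v, rfl⟩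
  rw [← Module.End.mul_apply, ← this, Module.End.mul_apply]

/-- The generators of the twisted algebra. -/
def x (v : V n) : Alg n :=
  ⟨tL v, (Subalgebra.mem_centralizer_iff n.F).2 (by rintro _ ⟨u, rfl⟩; exact tL_tR v u)⟩

theorem x_val (v : V n) : (x v).1 = tL v := rfl

theorem mul_val (a b : Alg n) (f : E n) : (a * b).1 f = a.1 (b.1 f) := rfl

theorem one_val (f : E n) : (1 : Alg n).1 f = f := rfl

theorem add_val (a b : Alg n) (f : E n) : (a + b).1 f = a.1 f + b.1 f := rfl

theorem Alg_fil (a : Alg n) (j : ℤ) (h : a.1 one ∈ Fs j) (s : ℤ) (hs : 0 ≤ s) (q : E n)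
    (hq : q ∈ Es s) : a.1 q ∈ Fs (s + j) := by
  refine gen_ind β' β'_tour (fun s => (Fs (s + j)).comap a.1) (by simpa using h) ?_ s hs hq
  intro s ih v q hq
  obtain ⟨q', hq', rfl⟩ := rot_surj hq
  change a.1 (tR v q') ∈ Fs (s + 1 + j)
  rw [Alg_comm, show s + 1 + j = s + j + 1 by ring]
  exact (hom_tR v).Fs _ _ (ih hq')

theorem Alg_fil' (a : Alg n) (j : ℤ) (h : a.1 one ∈ Fs j) (t : ℤ) (ht : 0 ≤ t) (q : E n)
    (hq : q ∈ Fs t) : a.1 q ∈ Fs (t + j) :=
  Fs_le t ((Fs (t + j)).comap a.1)
    (fun s hs q hq => Fs_mono (by omega) (Alg_fil a j h s (by omega) q hq)) hq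

theorem exists_bound : ∃ D : ℕ, ∀ f : E n, f ∈ Fs (D : ℤ) → f = 0 := by
  obtain ⟨D, hD⟩ := (Set.finite_range (deg (n := n))).bddAbove
  refine ⟨(D + 1).toNat, fun f hf => funext fun μ => hf μ ?_⟩
  have := hD ⟨μ, rfl⟩
  omega

theorem ev_inj (a : Alg n) (h : a.1 one = 0) : a = 0 := by
  obtain ⟨D, hD⟩ := exists_bound (n := n)
  refine Subtype.ext (LinearMap.ext fun q => hD _ ?_)
  have := Alg_fil' a D (by rw [h]; exact zero_mem _) 0 le_rfl q (mem_Fs_zero q)
  rwa [zero_add] at this

theorem ev_ext (a b : Alg n) (h : a.1 one = b.1 one) : a = b := by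
  rw [← sub_eq_zero]
  apply ev_inj
  simp [h]

/-- Evaluation at the unit. -/
def ev : Alg n →ₗ[n.F] E n where
  toFun a := a.1 one
  map_add' _ _ := rfl
  map_smul' _ _ := rfl

theorem ev_apply (a : Alg n) : ev a = a.1 one := rfl

theorem sh_zero (v : V n) : sh (0 : Z n) v = v := by
  cases v <;> simp [sh_some, sh_none]

theorem ev_surj (f : E n) : ∃ a : Alg n, a.1 one = f := by
  have h : Fs 0 ≤ LinearMap.range (ev (n := n)) := by
    have h0 : (one : E n) ∈ LinearMap.range (ev (n := n)) :=
      ⟨1, by rw [ev_apply, one_val]⟩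
    refine Fs_le 0 _ fun s hs => gen_ind β β_tour (fun _ => LinearMap.range ev) h0 ?_ s hs
    intro s ih v q hq
    obtain ⟨a, ha⟩ := ih hq
    refine ⟨x (sh (-(s : Z n)) v) * a, ?_⟩
    rw [ev_apply] at ha
    rw [ev_apply, mul_val, x_val, ha, tL_hom _ hq, sh_sh, neg_add_cancel, sh_zero]
  obtain ⟨a, ha⟩ := h (mem_Fs_zero f)
  exact ⟨a, by rw [← ha, ev_apply]⟩

theorem hlam (y : Alg n) (hy : ∀ a : Alg n, (a * y).1 one μ1 = 0) : y = 0 := by
  obtain ⟨D, hD⟩ := exists_bound (n := n)
  have key : ∀ t : ℕ, ∀ z : E n, z ∈ Fs ((D : ℤ) - t) → (∀ a : Alg n, a.1 z μ1 = 0) → z = 0 := by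
    intro t
    induction t with
    | zero => intro z hz _; exact hD z (by simpa using hz)
    | succ t ih =>
      intro z hz h
      have h1 : ∀ v, tL v z = 0 := fun v => ih _ (by
        have := (hom_tL v).Fs _ _ hz
        push_cast at this
        rwa [show (D : ℤ) - (t + 1) + 1 = D - t by ring] at this) (fun a => h (a * x v))
      funext μ
      by_cases hμ : μ = μ1
      · rw [hμ]; exact h 1
      · have h2 : ∀ v, L v (proj (deg μ) z) = 0 := fun v => by
          have h3 := (hom_tL (sh (-((deg μ : ℤ) : Z n)) v)).proj (deg μ) z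
          rw [h1, map_zero, tL_hom _ (proj_mem _ _), sh_sh, neg_add_cancel] at h3
          rw [h3]
          cases v <;> simp [sh_some, sh_none]
        have := socle β β_tour _ h2 μ hμ
        rwa [proj_apply, if_pos rfl] at this
  exact ev_inj y (key D _ (by simpa using mem_Fs_zero _) hy)

theorem Alg_μ0 (a : Alg n) (f : E n) : a.1 f μ0 = a.1 one μ0 * f μ0 := by
  have h1 : f - f μ0 • one ∈ Fs 1 := mem_Fs_one (by simp [one])
  have h2 := Alg_fil' a 0 (mem_Fs_zero _) 1 (by omega) _ h1 μ0 (by rw [deg_μ0]; omega)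
  rw [map_sub, map_smul] at h2
  simp only [Pi.sub_apply, Pi.smul_apply, smul_eq_mul, sub_eq_zero] at h2
  rw [h2, mul_comm]

/-- The augmentation. -/
def aug : Alg n →ₐ[n.F] n.F where
  toFun a := a.1 one μ0
  map_one' := by simp [one]
  map_mul' a b := Alg_μ0 a _
  map_zero' := rfl
  map_add' _ _ := rfl
  commutes' c := by simp [one, Algebra.algebraMap_eq_smul_one]

theorem aug_apply (a : Alg n) : aug a = a.1 one μ0 := rfl

/-! ### The Koszul computation -/

/-- The Koszul differential. -/
def δ : En n := L (some 0) - R (some 0)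

theorem δ_eq : (δ : En n) = ∑ c, W c * pd (pt c) := by
  have h1 : (δ : En n) = ∑ u, (β (some 0) u + β u (some 0)) • (W (col (some 0) u) * pd u) := by
    have : (δ : En n) = S β (some 0) - S β' (some 0) := by
      simp only [δ, T]; abel
    rw [this, S, S, ← Finset.sum_sub_distrib]
    exact Finset.sum_congr rfl fun u _ =>
      (sub_smul _ _ _).symm.trans (by rw [β', sub_neg_eq_add])
  rw [h1, Fintype.sum_option, β_sum _ _ (by simp), one_smul,
    ← Finset.add_sum_erase _ (fun c : Z n => W c * pd (pt c)) (Finset.mem_univ (0 : Z n)),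
    ← Finset.add_sum_erase _ (fun c : Z n => (β (some 0) (some c) + β (some c) (some 0)) •
      (W (col (some 0) (some c)) * pd (some c))) (Finset.mem_univ (0 : Z n)),
    β_self, add_zero, zero_smul, zero_add]
  refine congrArg₂ (· + ·) (by simp [col, pt]) (Finset.sum_congr rfl fun c hc => ?_)
  have hc' := Finset.ne_of_mem_erase hc
  rw [β_sum _ _ (by simpa using hc'.symm), one_smul]
  simp [col, pt, hc']

theorem pt_inj {c c' : Z n} (h : pt c = pt c') : c = c' := by
  rw [← col_pt c, h, col_pt]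

theorem δ_sq : (δ : En n) * δ = 0 := by
  have : (δ : En n) * δ = L (some 0) * L (some 0) + R (some 0) * R (some 0) -
      (L (some 0) * R (some 0) + R (some 0) * L (some 0)) := by
    simp only [δ, mul_sub, sub_mul]; abel
  rw [this, T_sq _ _ (β_self _), T_sq β' _ (β'_self _), L_R]
  simp

/-- The monomials surviving in the Koszul homology in the direction `c`. -/
def cond (c : Z n) (μ : Bas n) : Prop :=
  ((μ.1 (pt c)).val = 0 ∧ (μ.2 c).val = 0) ∨ ((μ.1 (pt c)).val = 1 ∧ (μ.2 c).val = n.m)

open Classical in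
theorem homotopy (c : Z n) (f : E n) (μ : Bas n) :
    δ (xi (pt c) (wd c f)) μ + xi (pt c) (wd c (δ f)) μ =
      f μ - if cond c μ then f μ else 0 := by
  have h1 : δ * (xi (pt c) * wd c) + (xi (pt c) * wd c) * δ =
      pd (pt c) * xi (pt c) * (W c * wd c) + xi (pt c) * pd (pt c) * (wd c * W c) := by
    rw [δ_eq, Finset.sum_mul, Finset.mul_sum, ← Finset.sum_add_distrib, Finset.sum_eq_single c]
    · congr 1
      · rw [← (pd_W _ _).eq, mul_assoc, mul_assoc, ← mul_assoc (W c), ← (xi_W _ _).eq, mul_assoc]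
      · rw [← (pd_W _ _).eq, mul_assoc, mul_assoc, ← mul_assoc (wd c), ← (pd_wd _ _).eq,
          mul_assoc]
    · intro c' _ hc
      have h3 : Commute (W c') (wd c) := ww_comm hc _ _
      have h4 := pd_xi (pt c') (pt c)
      rw [if_neg fun h => hc (pt_inj h)] at h4
      rw [mul_assoc, mul_assoc, ← mul_assoc (pd _), ← h3.left_comm, ← (pd_wd _ _).eq,
        (xi_W (pt c) c').left_comm, ← mul_assoc (xi _), ← mul_add, ← add_mul, h4, zero_mul,
        mul_zero]
    · simp
  have h2 := congrFun (LinearMap.congr_fun h1 f) μ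
  simp only [LinearMap.add_apply, Module.End.mul_apply, Pi.add_apply, pd_xi_apply, xi_pd_apply,
    W_wd_apply, wd_W_apply] at h2
  rw [h2]
  have a1 := (μ.1 (pt c)).isLt
  have a2 := (μ.2 c).isLt
  unfold cond
  split_ifs <;> first | omega | simp

theorem koszul (s : ℤ) (hs : (s : Z n) ≠ 0) (y : E n) (hy : y ∈ Es s) (h1 : δ y = 0)
    (h2 : pd (some 0) y = 0) : ∃ q ∈ Es (s + -1), y = δ q := by
  classical
  have key : ∀ A : Finset (Z n), ∃ q ∈ Es (s + -1),
      (fun μ => if ∀ c ∈ A, cond c μ then y μ else 0) = y + δ q := by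
    intro A
    induction A using Finset.induction_on with
    | empty => exact ⟨0, zero_mem _, by simp⟩
    | insert c A _ ih =>
      obtain ⟨q, hq, hz⟩ := ih
      have hδ : Hom 1 (δ : En n) := fun s f hf => sub_mem (hom_T _ _ s f hf) (hom_T _ _ s f hf)
      have hz1 : y + δ q ∈ Es s := add_mem hy (by
        have := hδ _ _ hq
        rwa [show s + -1 + 1 = s by ring] at this)
      have hz2 : δ (y + δ q) = 0 := by
        rw [map_add, h1, ← Module.End.mul_apply, δ_sq]; simp
      refine ⟨q - xi (pt c) (wd c (y + δ q)), sub_mem hq ?_, funext fun μ => ?_⟩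
      · have := hom_xi (pt c) _ _ (hom_wd c _ _ hz1)
        rwa [show s + -2 + 1 = s + -1 by ring] at this
      · have h3 := homotopy c (y + δ q) μ
        rw [hz2, map_zero, map_zero, Pi.zero_apply, add_zero] at h3
        rw [map_sub, ← add_sub_assoc, Pi.sub_apply, h3, sub_sub_cancel, ← hz]
        simp only [Finset.forall_mem_insert]
        by_cases hc : cond c μ <;> simp [hc]
  obtain ⟨q, hq, hz⟩ := key Finset.univ
  refine ⟨-q, neg_mem hq, ?_⟩
  have h3 : y + δ q = 0 := by
    rw [← hz]
    funext μ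
    simp only [Pi.zero_apply]
    split_ifs with hc
    · by_cases h0 : (μ.1 (some 0)).val = 0
      · apply hy
        intro hd
        apply hs
        rw [← hd]
        unfold deg
        rw [Fintype.sum_option, ← Finset.add_sum_erase _ _ (Finset.mem_univ (0 : Z n)), h0]
        have e1 : ((μ.1 none).val : ℤ) + (((0 : ℕ) : ℤ) +
            ∑ c ∈ Finset.univ.erase (0 : Z n), ((μ.1 (some c)).val : ℤ)) =
            ∑ c, ((μ.1 (pt c)).val : ℤ) := by
          rw [← Finset.add_sum_erase _ _ (Finset.mem_univ (0 : Z n))]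
          simp only [pt, if_true, Nat.cast_zero, zero_add]
          congr 1
          exact Finset.sum_congr rfl fun c hc => by rw [if_neg (Finset.ne_of_mem_erase hc)]
        rw [e1, Finset.mul_sum, ← Finset.sum_add_distrib, Int.cast_sum]
        refine Finset.sum_eq_zero fun c _ => ?_
        rcases hc c (Finset.mem_univ c) with ⟨e2, e3⟩ | ⟨e2, e3⟩
        · rw [e2, e3]; simp
        · rw [e2, e3]
          have := ZMod.natCast_self (2 * n.m + 1)
          push_cast at this ⊢
          rw [← this]; ring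
      · have h4 := xi_pd_apply (some 0) y μ
        rw [h2, map_zero, if_pos (by omega)] at h4
        exact h4.symm
    · rfl
  rw [map_neg]
  exact eq_neg_of_add_eq_zero_left h3

theorem pd_T_apply (γ : V n → V n → n.F) (v : V n) (f : E n) :
    f = pd v (T γ v f) + T γ v (pd v f) := by
  have := LinearMap.congr_fun (pd_T γ v v) f
  simpa using this.symm

theorem exact_A (a : Z n) (f : E n) (h : tL (some a) f = 0) :
    f ∈ LinearMap.range (tL (some (a + 1))) := by
  refine mem_of_proj _ f fun s => ?_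
  have h1 := (hom_tL (some a)).proj s f
  rw [h, map_zero, tL_hom _ (proj_mem s f)] at h1
  refine ⟨pd (sh (s : Z n) (some a)) (proj s f), ?_⟩
  rw [tL_hom _ (hom_pd _ _ _ (proj_mem s f))]
  conv_rhs => rw [pd_T_apply β (sh (s : Z n) (some a)) (proj s f), ← h1, map_zero, zero_add]
  simp only [sh_some]
  push_cast
  rw [show a + 1 + ((s : Z n) + -1) = a + s by ring]

theorem exact_M (a : Z n) (ha : a ≠ 0) (f g : E n) (h : tL (some a) f = R (some 0) g) :
    f ∈ LinearMap.range (tL (some (a + 1))) ⊔ LinearMap.range (R (some 0)) := by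
  refine mem_of_proj _ f fun s => ?_
  have h1 := (hom_tL (some a)).proj s f
  rw [h, (hom_T β' (some 0)).proj, tL_hom _ (proj_mem s f), sh_some] at h1
  have hm := proj_mem s f
  generalize proj s f = y at h1 hm
  generalize proj s g = g' at h1
  have hL : ∀ q ∈ Es (s + -1), L (some (a + (s : Z n))) q ∈
      LinearMap.range (tL (some (a + 1))) ⊔ LinearMap.range (R (some 0)) := by
    intro q hq
    refine Submodule.mem_sup_left ⟨q, ?_⟩
    rw [tL_hom _ hq, sh_some]
    push_cast
    rw [show a + 1 + ((s : Z n) + -1) = a + s by ring]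
  have hR : ∀ q, R (some 0) q ∈
      LinearMap.range (tL (some (a + 1))) ⊔ LinearMap.range (R (some 0)) :=
    fun q => Submodule.mem_sup_right ⟨q, rfl⟩
  by_cases hv : a + (s : Z n) = 0
  · rw [hv] at h1 hL
    have hRR : ∀ q : E n, R (some 0) (R (some 0) q) = 0 := fun q => by
      rw [← Module.End.mul_apply, T_sq β' _ (β'_self _)]; rfl
    have hpp : ∀ q : E n, pd (some 0) (pd (some 0) q) = 0 := fun q => by
      rw [← Module.End.mul_apply, pd_sq]; rfl
    have hLR : ∀ q : E n, L (some 0) (R (some 0) q) = -R (some 0) (L (some 0) q) := fun q =>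
      anti_apply (L_R (some 0) (some 0)) q
    have hy' : pd (some 0) (R (some 0) y) ∈ Es s := by
      have := hom_pd (some 0) _ _ (hom_T β' (some 0) _ _ hm)
      rwa [show s + 1 + -1 = s by ring] at this
    have hpδ : ∀ q : E n, δ (pd (some 0) q) = -pd (some 0) (δ q) := fun q => by
      have : (δ : En n) * pd (some 0) + pd (some 0) * δ = 0 := by
        rw [δ_eq, Finset.mul_sum, Finset.sum_mul, ← Finset.sum_add_distrib]
        exact Finset.sum_eq_zero fun _ _ => (add_comm _ _).trans (pd_Wpd _ _ _)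
      exact anti_apply this q
    have hδR : ∀ q : E n, δ (R (some 0) q) = -R (some 0) (L (some 0) q) := fun q => by
      rw [δ, LinearMap.sub_apply, hRR, sub_zero, hLR]
    have hδ : δ (pd (some 0) (R (some 0) y)) = 0 := by
      rw [hpδ, hδR, ← h1, hRR, neg_zero, map_zero, neg_zero]
    obtain ⟨q, hq, hq'⟩ := koszul s (fun h0 => ha (by simpa [h0] using hv)) _ hy' hδ (hpp _)
    rw [pd_T_apply β' (some 0) y, hq', δ, LinearMap.sub_apply]
    exact add_mem (sub_mem (hL q hq) (hR q)) (hR _)
  · rw [pd_T_apply β (some (a + (s : Z n))) y, ← h1]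
    refine add_mem ?_ (hL _ (hom_pd _ _ _ hm))
    have h2 := pd_T β' (some (a + (s : Z n))) (some 0)
    rw [if_neg (by simpa using hv)] at h2
    rw [anti_apply h2 g']
    exact neg_mem (hR _)

theorem T_one (γ : V n → V n → n.F) (v : V n) : T γ v one = xi v one := by
  rw [T_apply, Finset.sum_eq_zero, add_zero]
  intro u _
  have : pd u (one : E n) = 0 := by
    funext μ
    exact hom_pd u _ _ one_mem μ (by have := deg_nonneg μ; omega)
  rw [this]
  simp

theorem mul_x0 (a : Alg n) : (a * x (some 0)).1 one = R (some 0) (rot (a.1 one)) := by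
  have h : R (some 0) (rot (a.1 one)) = tR (some 0) (a.1 one) := by
    rw [tR, Module.End.mul_apply]
  rw [h, mul_val, x_val, ← Alg_comm, tL_hom _ one_mem, tR, Module.End.mul_apply, rot_one, T_one,
    T_one]
  simp [sh_some]

theorem rot_surj' (q : E n) : ∃ q', rot q' = q := ⟨_, rot_inv q⟩

variable (n) in
/-- The chain of exact zero divisors of period `2 n + 1`. -/
def chain : Chain n.F (Alg n) (2 * n.m + 1) where
  lam := LinearMap.proj μ1 ∘ₗ ev
  hlam := hlam
  χ := aug
  Fil j a := a.1 one ∈ Fs (j : ℤ)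
  fil_one := mem_Fs_zero _
  fil_mul j a b ha hb := by
    have := Alg_fil' a j ha 1 (by omega) _ (mem_Fs_one hb)
    rw [add_comm] at this
    push_cast
    exact this
  D := exists_bound.choose
  fil_top a ha := ev_inj a (exists_bound.choose_spec _ ha)
  u i := x (some (-(i : Z n)))
  χu i := by
    rw [aug_apply, x_val]
    exact hom_tL _ _ _ one_mem μ0 (by rw [deg_μ0]; omega)
  uu i := by
    apply ev_inj
    rw [mul_val, x_val, x_val, tL_hom _ (hom_tL _ _ _ one_mem), tL_hom _ one_mem, sh_some, sh_some]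
    push_cast
    rw [show -((i : Z n) + 1) + 1 = -i + 0 by ring, ← Module.End.mul_apply, T_sq _ _ (β_self _)]
    rfl
  exA i y h := by
    obtain ⟨q, hq⟩ := exact_A (-((i + 1 : ℕ) : Z n)) (y.1 one) (congrArg (fun a => a.1 one) h)
    obtain ⟨z, rfl⟩ := ev_surj q
    refine ⟨z, ev_ext _ _ ?_⟩
    rw [← hq]
    push_cast
    rw [show -((i : Z n) + 1) + 1 = -i by ring]
    rfl
  exM i hi y a h := by
    have h1 : tL (some (-((i + 1 : ℕ) : Z n))) (y.1 one) = R (some 0) (rot (a.1 one)) := by
      rw [← mul_x0]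
      have := congrArg (fun a => a.1 one) h
      simpa [x_val] using this
    have ha : -((i + 1 : ℕ) : Z n) ≠ 0 := by
      rw [neg_ne_zero, Ne, ZMod.natCast_eq_zero_iff]
      exact Nat.not_dvd_of_pos_of_lt (by omega) hi
    obtain ⟨_, ⟨q, rfl⟩, _, ⟨q', rfl⟩, h2⟩ := Submodule.mem_sup.1 (exact_M _ ha _ _ h1)
    obtain ⟨z, rfl⟩ := ev_surj q
    obtain ⟨q'', rfl⟩ := rot_surj' q'
    obtain ⟨z', rfl⟩ := ev_surj q''
    refine ⟨z, z', ev_ext _ _ ?_⟩
    rw [← h2, ← mul_x0]
    push_cast
    rw [show -((i : Z n) + 1) + 1 = -i by ring]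
    simp
    rfl
  per := by rw [ZMod.natCast_self]; simp

end Pool.Agent.Lib.MP_1ef125_al.Gen
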